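import Pool.Agent.K6.H14.PD.Stm
import Pool.Agent.Y955.PF.Iso

/-! # Piece B1 (by helper90) -/

set_option autoImplicit false

namespace Pool.Agent.K6.H14.PD

open Pool.Agent.Y955.PF

namespace PB1

variable {p : ℕ} [Fact p.Prime]

lemma norm_of_close {x y : ℚ_[p]} (h : ‖x - y‖ < ‖y‖) : ‖x‖ = ‖y‖ := by
  have h1 : ‖(x - y) + y‖ = max ‖x - y‖ ‖y‖ := Padic.add_eq_max_of_ne (ne_of_lt h)
  rw [sub_add_cancel, max_eq_right h.le] at h1
  exact h1

lemma norm_add_le' {x y : ℚ_[p]} {c : ℝ} (hx : ‖x‖ ≤ c) (hy : ‖y‖ ≤ c) : ‖x + y‖ ≤ c :=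
  le_trans (Padic.nonarchimedean x y) (max_le hx hy)

lemma norm_sub_le' {x y : ℚ_[p]} {c : ℝ} (hx : ‖x‖ ≤ c) (hy : ‖y‖ ≤ c) : ‖x - y‖ ≤ c := by
  rw [sub_eq_add_neg]
  exact norm_add_le' hx (by rwa [norm_neg])

lemma norm_add_right {x y : ℚ_[p]} (h : ‖x‖ < ‖y‖) : ‖x + y‖ = ‖y‖ := by
  rw [Padic.add_eq_max_of_ne (ne_of_lt h), max_eq_right h.le]

lemma pinv_pos : (0 : ℝ) < (p : ℝ)⁻¹ := by
  have := (Fact.out : p.Prime).pos
  positivity

lemma pinv_lt : (p : ℝ)⁻¹ < 1 := by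
  have h := (Fact.out : p.Prime).one_lt
  exact inv_lt_one_of_one_lt₀ (by exact_mod_cast h)

end PB1

open PB1 in
theorem t_B1 : S_B1 := by
  intro p _ u η b c hη0 hηp hb hu0 hu hc hcb
  have hp0 : (0 : ℝ) < (p : ℝ)⁻¹ := pinv_pos
  have hp1 : (p : ℝ)⁻¹ < 1 := pinv_lt
  have hη : 0 < ‖η‖ := norm_pos_iff.2 hη0
  have hη1 : ‖η‖ < 1 := lt_of_le_of_lt hηp hp1
  have h00 : ‖(0 : ℚ_[p])‖ ≤ ‖η‖ := by rw [norm_zero]; exact hη.le
  -- the difference of two values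
  have hdiff : ∀ a a' : ℚ_[p], ‖a‖ ≤ ‖η‖ → ‖a'‖ ≤ ‖η‖ → ‖u a - u a'‖ ≤ ‖a - a'‖ := by
    intro a a' ha ha'
    have e : u a - u a' = (u a - u a' - b * (a - a')) + b * (a - a') := by ring
    rw [e]
    refine norm_add_le' (le_trans (hu a a' ha ha') ?_) ?_
    · nlinarith [norm_nonneg (a - a')]
    · rw [norm_mul]
      nlinarith [norm_nonneg (a - a')]
  have hule : ∀ a : ℚ_[p], ‖a‖ ≤ ‖η‖ → ‖u a‖ ≤ ‖η‖ := by
    intro a ha
    have e : u a = (u a - u 0) + η := by rw [hu0]; ring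
    rw [e]
    refine norm_add_le' (le_trans (hdiff a 0 ha h00) ?_) le_rfl
    rw [sub_zero]; exact ha
  have hu1 : ∀ a : ℚ_[p], ‖a‖ ≤ ‖η‖ → ‖u a - 1‖ = 1 := by
    intro a ha
    have h1 : ‖u a + (-1)‖ = ‖(-1 : ℚ_[p])‖ := by
      refine norm_add_right ?_
      rw [norm_neg, norm_one]
      exact lt_of_le_of_lt (hule a ha) hη1
    rw [sub_eq_add_neg, h1, norm_neg, norm_one]
  have hsum : ∀ a a' : ℚ_[p], ‖a‖ ≤ ‖η‖ → ‖a'‖ ≤ ‖η‖ → ‖u a + u a' - 1‖ = 1 := by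
    intro a a' ha ha'
    have h1 : ‖(u a + u a') + (-1)‖ = ‖(-1 : ℚ_[p])‖ := by
      refine norm_add_right ?_
      rw [norm_neg, norm_one]
      exact lt_of_le_of_lt (norm_add_le' (hule a ha) (hule a' ha')) hη1
    rw [sub_eq_add_neg, h1, norm_neg, norm_one]
  -- the function F
  set F : ℚ_[p] → ℚ_[p] := fun a => a - c * ((u a - 1) * u a) with hF
  have hFiso : ∀ x y : ℚ_[p], ‖x - 0‖ ≤ ‖η‖ → ‖y - 0‖ ≤ ‖η‖ → ‖F x - F y‖ = 1 * ‖x - y‖ := by
    intro x y hx hy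
    rw [sub_zero] at hx hy
    rw [one_mul]
    rcases eq_or_ne x y with rfl | hne
    · simp
    have hpos : 0 < ‖x - y‖ := norm_pos_iff.2 (sub_ne_zero.2 hne)
    have e : F x - F y = (-(c * ((u x - u y - b * (x - y)) * (u x + u y - 1))) -
        c * b * (x - y) * (u x + u y)) + (x - y) * (1 + c * b) := by
      simp only [hF]; ring
    have h2 : ‖(x - y) * (1 + c * b)‖ = ‖x - y‖ := by rw [norm_mul, hcb, mul_one]
    rw [e, norm_add_right, h2]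
    rw [h2]
    refine lt_of_le_of_lt (norm_sub_le' (c := ‖η‖ * ‖x - y‖) ?_ ?_) (by nlinarith)
    · rw [norm_neg, norm_mul, hc, one_mul, norm_mul, hsum x y hx hy, mul_one]
      exact hu x y hx hy
    · rw [norm_mul, norm_mul, norm_mul, hc, one_mul]
      have h3 : ‖u x + u y‖ ≤ ‖η‖ := norm_add_le' (hule x hx) (hule y hy)
      calc ‖b‖ * ‖x - y‖ * ‖u x + u y‖ ≤ 1 * ‖x - y‖ * ‖η‖ := by gcongr
        _ = ‖η‖ * ‖x - y‖ := by ring
  obtain ⟨a₀, ha₀, hFa₀⟩ := iso p F 0 ‖η‖ 1 hη one_pos hFiso 0 (by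
    rw [one_mul, zero_sub, norm_neg]
    have e : F 0 = -(c * ((η - 1) * η)) := by simp only [hF, hu0]; ring
    have h3 := hu1 0 h00
    rw [hu0] at h3
    rw [e, norm_neg, norm_mul, norm_mul, hc, h3]
    simp)
  rw [sub_zero] at ha₀
  have hFa : a₀ = c * ((u a₀ - 1) * u a₀) := by
    simp only [hF] at hFa₀
    linear_combination hFa₀
  have hna : ‖a₀‖ = ‖u a₀‖ := by
    conv_lhs => rw [hFa]
    rw [norm_mul, norm_mul, hc, hu1 a₀ ha₀, one_mul, one_mul]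
  have hn₀ : ‖a₀‖ = ‖η‖ := by
    by_contra hne
    have hlt : ‖a₀‖ < ‖η‖ := lt_of_le_of_ne ha₀ hne
    have h1 : ‖u a₀ - η‖ < ‖η‖ := by
      have h2 := hdiff a₀ 0 ha₀ h00
      rw [hu0, sub_zero] at h2
      exact lt_of_le_of_lt h2 hlt
    exact hne (by rw [hna]; exact norm_of_close h1)
  have hu₀ : ‖u a₀‖ = ‖η‖ := by rw [← hna]; exact hn₀
  have hu₀0 : u a₀ ≠ 0 := by
    intro h; rw [h, norm_zero] at hu₀; exact hη.ne hu₀
  have hu₀1 : u a₀ - 1 ≠ 0 := by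
    intro h
    have := hu1 a₀ ha₀
    rw [h, norm_zero] at this; exact zero_ne_one this
  have hρ : ‖η‖ * (p : ℝ)⁻¹ < ‖η‖ := by nlinarith
  -- facts on the small ball
  have hin : ∀ a : ℚ_[p], ‖a - a₀‖ ≤ ‖η‖ * (p : ℝ)⁻¹ → ‖a‖ ≤ ‖η‖ := by
    intro a ha
    have e : a = (a - a₀) + a₀ := by ring
    rw [e]
    exact norm_add_le' (le_trans ha hρ.le) ha₀
  have huc : ∀ a : ℚ_[p], ‖a - a₀‖ ≤ ‖η‖ * (p : ℝ)⁻¹ → ‖u a - u a₀‖ ≤ ‖η‖ * (p : ℝ)⁻¹ := by
    intro a ha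
    exact le_trans (hdiff a a₀ (hin a ha) ha₀) ha
  have hun : ∀ a : ℚ_[p], ‖a - a₀‖ ≤ ‖η‖ * (p : ℝ)⁻¹ → ‖u a‖ = ‖η‖ := by
    intro a ha
    rw [← hu₀]
    refine norm_of_close (lt_of_le_of_lt (huc a ha) ?_)
    rw [hu₀]; exact hρ
  refine ⟨a₀, hn₀, ?_, ?_⟩
  · rw [div_eq_iff (mul_ne_zero hu₀1 hu₀0)]
    exact hFa
  · intro a a' ha ha'
    refine ⟨hun a ha, ?_⟩
    have hA := hin a ha
    have hA' := hin a' ha'
    have hua0 : u a ≠ 0 := by
      intro h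
      have := hun a ha
      rw [h, norm_zero] at this; exact hη.ne this
    have hua1 : u a - 1 ≠ 0 := by
      intro h
      have := hu1 a hA
      rw [h, norm_zero] at this; exact zero_ne_one this
    have hua0' : u a' ≠ 0 := by
      intro h
      have := hun a' ha'
      rw [h, norm_zero] at this; exact hη.ne this
    have hua1' : u a' - 1 ≠ 0 := by
      intro h
      have := hu1 a' hA'
      rw [h, norm_zero] at this; exact zero_ne_one this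
    rcases eq_or_ne a a' with rfl | hne
    · simp
    have hpos : 0 < ‖a - a'‖ := norm_pos_iff.2 (sub_ne_zero.2 hne)
    -- the numerator
    have e : a / ((u a - 1) * u a) - a' / ((u a' - 1) * u a') =
        ((((a - a') * (u a' * u a') - a' * ((u a - u a' - b * (a - a')) * (u a + u a' - 1))) -
          (a - a') * (b * (a' * (u a + u a')))) +
          (a - a') * (b * (a' + c * u a'))) / (((u a - 1) * u a) * ((u a' - 1) * u a')) +
          (-((a - a') * (u a' * (1 + c * b)))) / (((u a - 1) * u a) * ((u a' - 1) * u a')) := by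
      rw [div_sub_div _ _ (mul_ne_zero hua1 hua0) (mul_ne_zero hua1' hua0'), ← add_div]
      congr 1
      ring
    have hden : ‖((u a - 1) * u a) * ((u a' - 1) * u a')‖ = ‖η‖ * ‖η‖ := by
      simp only [norm_mul, hu1 a hA, hu1 a' hA', hun a ha, hun a' ha', one_mul]
    have hbig : ‖-((a - a') * (u a' * (1 + c * b)))‖ = ‖a - a'‖ * ‖η‖ := by
      rw [norm_neg, norm_mul, norm_mul, hcb, hun a' ha', mul_one]
    -- a' + c u' is small
    have hac : ‖a' + c * u a'‖ ≤ ‖η‖ * (p : ℝ)⁻¹ := by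
      have e3 : a' + c * u a' = ((a' - a₀) + c * (u a' - u a₀)) + c * (u a₀ * u a₀) := by
        linear_combination hFa
      rw [e3]
      refine norm_add_le' (norm_add_le' ha' ?_) ?_
      · rw [norm_mul, hc, one_mul]; exact huc a' ha'
      · rw [norm_mul, norm_mul, hc, one_mul, hu₀]
        exact mul_le_mul_of_nonneg_left hηp hη.le
    have hs : ∀ x y : ℝ, 0 ≤ x → x ≤ ‖η‖ → 0 ≤ y → y ≤ ‖η‖ → x * y ≤ ‖η‖ * (p : ℝ)⁻¹ := by
      intro x y hx0 hx hy0 hy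
      calc x * y ≤ ‖η‖ * ‖η‖ := by gcongr
        _ ≤ ‖η‖ * (p : ℝ)⁻¹ := mul_le_mul_of_nonneg_left hηp hη.le
    have hsmall : ‖(((a - a') * (u a' * u a') - a' * ((u a - u a' - b * (a - a')) *
        (u a + u a' - 1))) - (a - a') * (b * (a' * (u a + u a')))) +
          (a - a') * (b * (a' + c * u a'))‖ ≤ ‖a - a'‖ * (‖η‖ * (p : ℝ)⁻¹) := by
      refine norm_add_le' (norm_sub_le' (norm_sub_le' ?_ ?_) ?_) ?_
      · rw [norm_mul, norm_mul]
        exact mul_le_mul_of_nonneg_left (hs _ _ (norm_nonneg _) (hule a' hA') (norm_nonneg _)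
          (hule a' hA')) hpos.le
      · rw [norm_mul, norm_mul, hsum a a' hA hA', mul_one]
        have h4 := hu a a' hA hA'
        calc ‖a'‖ * ‖u a - u a' - b * (a - a')‖ ≤ ‖η‖ * (‖η‖ * ‖a - a'‖) := by gcongr
          _ = ‖a - a'‖ * (‖η‖ * ‖η‖) := by ring
          _ ≤ ‖a - a'‖ * (‖η‖ * (p : ℝ)⁻¹) := by gcongr
      · rw [norm_mul]
        refine mul_le_mul_of_nonneg_left ?_ hpos.le
        rw [norm_mul, norm_mul]
        have h5 : ‖u a + u a'‖ ≤ ‖η‖ := norm_add_le' (hule a hA) (hule a' hA')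
        have h6 := hs ‖a'‖ ‖u a + u a'‖ (norm_nonneg _) hA' (norm_nonneg _) h5
        calc ‖b‖ * (‖a'‖ * ‖u a + u a'‖) ≤ 1 * (‖a'‖ * ‖u a + u a'‖) := by gcongr
          _ ≤ ‖η‖ * (p : ℝ)⁻¹ := by rw [one_mul]; exact h6
      · rw [norm_mul]
        refine mul_le_mul_of_nonneg_left ?_ hpos.le
        rw [norm_mul]
        calc ‖b‖ * ‖a' + c * u a'‖ ≤ 1 * ‖a' + c * u a'‖ := by gcongr
          _ ≤ ‖η‖ * (p : ℝ)⁻¹ := by rw [one_mul]; exact hac
    rw [e, ← add_div, norm_div, hden, norm_add_right, hbig]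
    · field_simp
    · rw [hbig]
      refine lt_of_le_of_lt hsmall ?_
      exact mul_lt_mul_of_pos_left hρ hpos

end Pool.Agent.K6.H14.PD
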