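import Pool.Agent.K6.H14.PD.Stm

/-!
# The second iterate is a similarity near a root of `c ^ 2 + c + 1` modulo `p` (helper66)
-/

set_option autoImplicit false

namespace Pool.Agent.K6.H14.PD

theorem t_B2 : S_B2 := by
  intro p _ a a' c y y' ha ha' hc hc1 h2c hcc hy hy' haa
  have hp1 : (1:ℝ) < p := by exact_mod_cast (Fact.out : p.Prime).one_lt
  obtain ⟨P, hP⟩ : ∃ P : ℝ, P = (p:ℝ)⁻¹ := ⟨_, rfl⟩
  rw [← hP] at ha ha' hcc hy hy' haa ⊢
  have hP0 : 0 < P := by rw [hP]; positivity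
  have hP1 : P < 1 := by rw [hP]; exact inv_lt_one_of_one_lt₀ hp1
  have na : ∀ (u v : ℚ_[p]) (r : ℝ), ‖u‖ ≤ r → ‖v‖ ≤ r → ‖u + v‖ ≤ r := fun u v r hu hv =>
    (IsUltrametricDist.norm_add_le_max u v).trans (max_le hu hv)
  have eq1 : ∀ (u v : ℚ_[p]) (r : ℝ), ‖u‖ = r → ‖v‖ ≤ P * r → ‖u + v‖ = r := by
    intro u v r hu hv
    rcases (norm_nonneg u).eq_or_lt with h0 | h0
    · have hr : r = 0 := by rw [← hu, ← h0]
      rw [hr, mul_zero] at hv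
      have hv0 : v = 0 := norm_le_zero_iff.1 hv
      rw [hv0, add_zero, hu]
    · have h1 : ‖v‖ < ‖u‖ := by
        rw [hu] at h0 ⊢
        nlinarith
      rw [IsUltrametricDist.norm_add_eq_max_of_norm_ne_norm h1.ne', max_eq_left h1.le, hu]
  have hP' : ∀ u : ℚ_[p], ‖u‖ ≤ P → ‖u‖ ≤ P * 1 := fun u hu => by rwa [mul_one]
  -- norms of `y`, `y + 1`
  have hny : ∀ y : ℚ_[p], ‖y - c‖ ≤ P → ‖y‖ = 1 ∧ ‖y + 1‖ = 1 ∧ ‖y ^ 2 + y‖ = 1 ∧
      ‖y ^ 2 + y + 1‖ ≤ P := by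
    intro y hy
    have h1 : ‖y‖ = 1 := by
      have := eq1 c (y - c) 1 hc (hP' _ hy)
      rwa [add_sub_cancel] at this
    have h2 : ‖y + 1‖ = 1 := by
      have := eq1 (c + 1) (y - c) 1 hc1 (hP' _ hy)
      have e : c + 1 + (y - c) = y + 1 := by ring
      rwa [e] at this
    refine ⟨h1, h2, ?_, ?_⟩
    · have e : y ^ 2 + y = y * (y + 1) := by ring
      rw [e, norm_mul, h1, h2, one_mul]
    · have e : y ^ 2 + y + 1 = (c ^ 2 + c + 1) + (y - c) * (y + 1 + c) := by ring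
      rw [e]
      refine na _ _ _ hcc ?_
      rw [norm_mul]
      have h3 : ‖y + 1 + c‖ ≤ 1 := na _ _ _ h2.le hc.le
      calc ‖y - c‖ * ‖y + 1 + c‖ ≤ P * 1 := by gcongr
        _ = P := mul_one P
  obtain ⟨h1, h2, h3, h4⟩ := hny y hy
  obtain ⟨h1', h2', h3', h4'⟩ := hny y' hy'
  have h5 : ‖y ^ 2 + y + a‖ = 1 := eq1 _ _ _ h3 (hP' _ ha)
  have h5' : ‖y' ^ 2 + y' + a'‖ = 1 := eq1 _ _ _ h3' (hP' _ ha')
  have hne : y ^ 2 + y + a ≠ 0 := fun h => by rw [h, norm_zero] at h5; exact zero_ne_one h5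
  have hne' : y' ^ 2 + y' + a' ≠ 0 := fun h => by rw [h, norm_zero] at h5'; exact zero_ne_one h5'
  have h6 : ‖y + y' + 1‖ = 1 := by
    have h := eq1 (2 * c + 1) ((y - c) + (y' - c)) 1 h2c (hP' _ (na _ _ _ hy hy'))
    have e : 2 * c + 1 + ((y - c) + (y' - c)) = y + y' + 1 := by ring
    rwa [e] at h
  have h7 : ‖(y ^ 2 + y) - (y' ^ 2 + y')‖ = ‖y - y'‖ := by
    have e : (y ^ 2 + y) - (y' ^ 2 + y') = (y - y') * (y + y' + 1) := by ring
    rw [e, norm_mul, h6, mul_one]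
  constructor
  · have e : G a y - G a' y' = ((y ^ 2 + y) * (y' ^ 2 + y') * ((y ^ 2 + y) - (y' ^ 2 + y')) +
        (-((y' ^ 2 + y') ^ 2 * (a - a')) +
          ((y ^ 2 + y) - (y' ^ 2 + y')) * ((y ^ 2 + y) + (y' ^ 2 + y')) * a')) /
        ((y ^ 2 + y + a) * (y' ^ 2 + y' + a')) := by
      unfold G
      rw [div_sub_div _ _ hne hne']
      congr 1
      ring
    rw [e, norm_div, norm_mul (y ^ 2 + y + a), h5, h5', mul_one, div_one]
    refine eq1 _ _ _ ?_ ?_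
    · rw [norm_mul, norm_mul, h3, h3', h7, one_mul, one_mul]
    · refine na _ _ _ ?_ ?_
      · rw [norm_neg, norm_mul, norm_pow, h3', one_pow, one_mul]
        exact haa
      · rw [norm_mul, norm_mul, h7]
        have h8 : ‖(y ^ 2 + y) + (y' ^ 2 + y')‖ ≤ 1 := na _ _ _ h3.le h3'.le
        calc ‖y - y'‖ * ‖(y ^ 2 + y) + (y' ^ 2 + y')‖ * ‖a'‖ ≤ ‖y - y'‖ * 1 * P := by gcongr
          _ = P * ‖y - y'‖ := by ring
  · have e : G a y + 1 = ((y ^ 2 + y) * (y ^ 2 + y + 1) + a) / (y ^ 2 + y + a) := by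
      unfold G
      rw [div_add_one hne]
      congr 1
      ring
    rw [e, norm_div, h5, div_one]
    refine na _ _ _ ?_ ha
    rw [norm_mul, h3, one_mul]
    exact h4

end Pool.Agent.K6.H14.PD
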