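import Pool.Agent.K6.H14.PD.Stm

/-!
# Quadratic postcritically finite maps over `ℚ_p`: the first passage
-/

set_option autoImplicit false

namespace Pool.Agent.K6.H14.PD

open Pool.Agent.Y955.PF

noncomputable section

namespace BAS

variable {p : ℕ} [Fact p.Prime]

theorem p_inv_pos : 0 < (p : ℝ)⁻¹ := by
  have : 0 < (p : ℝ) := by exact_mod_cast (Fact.out : p.Prime).pos
  positivity

theorem p_inv_lt : (p : ℝ)⁻¹ < 1 := by
  apply inv_lt_one_of_one_lt₀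
  exact_mod_cast (Fact.out : p.Prime).one_lt

theorem norm_of_close {x y : ℚ_[p]} (h : ‖x - y‖ < ‖y‖) : ‖x‖ = ‖y‖ := by
  have h1 : x = (x - y) + y := by ring
  rw [h1, Padic.add_eq_max_of_ne h.ne]
  exact max_eq_right h.le

theorem norm_two (hp : p ≠ 2) : ‖(2 : ℚ_[p])‖ = 1 := by
  have h1 : ‖((2 : ℤ) : ℚ_[p])‖ ≤ 1 := Padic.norm_int_le_one 2
  have h2 : ¬ ‖((2 : ℤ) : ℚ_[p])‖ < 1 := by
    rw [Padic.norm_intCast_lt_one_iff]
    intro h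
    have h3 : p ∣ 2 := by exact_mod_cast h
    exact hp ((Nat.prime_dvd_prime_iff_eq Fact.out Nat.prime_two).1 h3)
  have h4 : ‖((2 : ℤ) : ℚ_[p])‖ = 1 := le_antisymm h1 (not_lt.1 h2)
  simpa using h4

theorem add_le' {x y : ℚ_[p]} {r : ℝ} (hx : ‖x‖ ≤ r) (hy : ‖y‖ ≤ r) : ‖x + y‖ ≤ r :=
  (Padic.nonarchimedean x y).trans (max_le hx hy)

theorem step_even {a : ℚ_[p]} {x : ℚ_[p]} (ha : a ≠ 0) (h0 : x ≠ 0) (h1 : x + 1 ≠ 0)
    (_h2 : x ^ 2 + x + a ≠ 0) :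
    a / (a / (x * (x + 1)) * (a / (x * (x + 1)) + 1)) = G a x := by
  have h3 : x * (x + 1) ≠ 0 := mul_ne_zero h0 h1
  have h4 : a / (x * (x + 1)) + 1 = (x ^ 2 + x + a) / (x * (x + 1)) := by
    field_simp
    ring
  rw [h4]
  unfold G
  field_simp
  try ring

/-- the common part: `X a (2 m + 1)` near `c` -/
theorem first (hYJ : S_YJ) (hXY : S_XY) (hB1 : S_B1) {m : ℕ} (hp : p ≠ 2)
    (hηp : ‖tt ℚ_[p] m + 1‖ ≤ (p : ℝ)⁻¹) (hη0 : tt ℚ_[p] m + 1 ≠ 0)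
    (hu : ∀ j < m, ‖tt ℚ_[p] j‖ = 1 ∧ ‖tt ℚ_[p] j + 1‖ = 1) (c : ℚ_[p]) (hc : ‖c‖ = 1)
    (hcb : ‖1 + c * β ℚ_[p] m‖ = 1) :
    ∃ a₀ : ℚ_[p], ‖a₀‖ = ‖tt ℚ_[p] m + 1‖ ∧
      ∀ a : ℚ_[p], ‖a - a₀‖ ≤ (p : ℝ)⁻¹ * ‖tt ℚ_[p] m + 1‖ →
        ‖a‖ = ‖tt ℚ_[p] m + 1‖ ∧
        (∀ k < 2 * m + 1, X a k ≠ 0 ∧ X a k ≠ -1) ∧ ‖X a (2 * m + 1) - c‖ ≤ (p : ℝ)⁻¹ ∧
        ∀ a' : ℚ_[p], ‖a' - a₀‖ ≤ (p : ℝ)⁻¹ * ‖tt ℚ_[p] m + 1‖ →
          ‖X a (2 * m + 1) - X a' (2 * m + 1)‖ = ‖a - a'‖ / ‖tt ℚ_[p] m + 1‖ := by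
  set η := tt ℚ_[p] m + 1 with hη
  have hD0 : 0 < ‖η‖ := norm_pos_iff.2 hη0
  have hD1 : ‖η‖ < 1 := hηp.trans_lt p_inv_lt
  obtain ⟨hb, hY0, hest⟩ := hYJ p m ‖η‖ hp hD0 hD1 hu m le_rfl
  obtain ⟨a₀, ha₀, hw₀, hball⟩ := hB1 p (fun a => Y a m + 1) η (β ℚ_[p] m) c hη0 hηp hb
    (by rw [hY0]) (fun a a' ha ha' => by
      have := hest a a' ha ha'
      have e : Y a m + 1 - (Y a' m + 1) - β ℚ_[p] m * (a - a') =
        Y a m - Y a' m - β ℚ_[p] m * (a - a') := by ring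
      rw [e]
      exact this) hc hcb
  have hcl : ∀ a : ℚ_[p], ‖a - a₀‖ ≤ (p : ℝ)⁻¹ * ‖η‖ → ‖a‖ = ‖η‖ := by
    intro a ha
    rw [← ha₀]
    apply norm_of_close
    rw [ha₀]
    refine ha.trans_lt ?_
    calc (p : ℝ)⁻¹ * ‖η‖ < 1 * ‖η‖ := mul_lt_mul_of_pos_right p_inv_lt hD0
      _ = ‖η‖ := one_mul _
  have hX : ∀ a : ℚ_[p], ‖a - a₀‖ ≤ (p : ℝ)⁻¹ * ‖η‖ →
      (∀ k < 2 * m + 1, X a k ≠ 0 ∧ X a k ≠ -1) ∧
      X a (2 * m + 1) = a / ((Y a m + 1 - 1) * (Y a m + 1)) := by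
    intro a ha
    have hn := hcl a ha
    have ha0 : a ≠ 0 := norm_pos_iff.1 (hn ▸ hD0)
    obtain ⟨h1, h2⟩ := hXY p m ‖η‖ hp hD0 hD1 hu a ha0 hn.le m le_rfl
    have h3 := (hball a a (by rw [mul_comm]; exact ha) (by rw [mul_comm]; exact ha)).1
    refine ⟨fun k hk => ?_, ?_⟩
    · rcases Nat.lt_succ_iff_lt_or_eq.1 hk with h | h
      · exact h2 k h
      · rw [h, h1]
        constructor
        · intro h0
          have h3' : ‖Y a m + 1‖ = ‖η‖ := h3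
          rw [h0, zero_add, norm_one] at h3'
          linarith
        · intro h0
          have h3' : ‖Y a m + 1‖ = ‖η‖ := h3
          rw [h0, neg_add_cancel, norm_zero] at h3'
          linarith
    · have e1 : X a (2 * m + 1) = a / (X a (2 * m) * (X a (2 * m) + 1)) := rfl
      rw [e1, h1, add_sub_cancel_right]
  refine ⟨a₀, ha₀, fun a ha => ⟨hcl a ha, (hX a ha).1, ?_, fun a' ha' => ?_⟩⟩
  · have h1 := (hball a a₀ (by rw [mul_comm]; exact ha) (by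
      rw [sub_self, norm_zero]
      exact mul_nonneg hD0.le p_inv_pos.le)).2
    rw [(hX a ha).2]
    change ‖a / ((Y a m + 1 - 1) * (Y a m + 1)) - a₀ / ((Y a₀ m + 1 - 1) * (Y a₀ m + 1))‖ = _ at h1
    change a₀ / ((Y a₀ m + 1 - 1) * (Y a₀ m + 1)) = c at hw₀
    rw [hw₀] at h1
    rw [h1, div_le_iff₀ hD0]
    exact ha
  · rw [(hX a ha).2, (hX a' ha').2]
    exact (hball a a' (by rw [mul_comm]; exact ha) (by rw [mul_comm]; exact ha')).2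

end BAS

theorem t_BAS (hYJ : S_YJ) (hXY : S_XY) (hTN : S_TN) (hB1 : S_B1) (hB2 : S_B2) : S_BAS := by
  intro p _ n hp hn
  obtain ⟨m, hm1, -, hηp, hη0, hu⟩ := hTN p n hp hn
  have hD0 : 0 < ‖tt ℚ_[p] m + 1‖ := norm_pos_iff.2 hη0
  have hD1 : ‖tt ℚ_[p] m + 1‖ < 1 := hηp.trans_lt BAS.p_inv_lt
  have hrad : (p : ℝ)⁻¹ / (1 / ‖tt ℚ_[p] m + 1‖) = (p : ℝ)⁻¹ * ‖tt ℚ_[p] m + 1‖ := by
    rw [div_div_eq_mul_div, div_one]
  by_cases hb : ‖1 + (-1) * β ℚ_[p] m‖ = 1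
  · obtain ⟨a₀, ha₀, h⟩ := BAS.first hYJ hXY hB1 hp hηp hη0 hu (-1) (by simp) hb
    refine ⟨‖tt ℚ_[p] m + 1‖, 1 / ‖tt ℚ_[p] m + 1‖, 2 * m + 1, hD0, hηp, le_rfl, a₀, ha₀, ?_⟩
    rw [hrad]
    intro a ha
    obtain ⟨-, h2, h3, h4⟩ := h a ha
    refine ⟨h2, ?_, fun a' ha' => ?_⟩
    · rw [sub_neg_eq_add] at h3
      exact h3
    · rw [h4 a' ha']
      ring
  · obtain ⟨hβ, -, -⟩ := hYJ p m _ hp hD0 hD1 hu m le_rfl
    have hlt : ‖1 + (-1) * β ℚ_[p] m‖ < 1 := by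
      refine lt_of_le_of_ne ?_ hb
      exact BAS.add_le' (by simp) (by simpa using hβ)
    have hm2 : 2 ≤ m := by
      by_contra hlt2
      have h1 : m = 1 := by omega
      subst h1
      apply hb
      have : (1 : ℚ_[p]) + (-1) * β ℚ_[p] 1 = 2 := by
        simp only [β]
        ring
      rw [this]
      exact BAS.norm_two hp
    obtain ⟨i, rfl⟩ : ∃ i, m = i + 2 := ⟨m - 2, by omega⟩
    obtain ⟨hc, hc1⟩ := hu (i + 1) (by omega)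
    have hcb : ‖1 + tt ℚ_[p] (i + 1) * β ℚ_[p] (i + 2)‖ = 1 := by
      rw [← hc1]
      apply BAS.norm_of_close
      have e : 1 + tt ℚ_[p] (i + 1) * β ℚ_[p] (i + 2) - (tt ℚ_[p] (i + 1) + 1) =
        -(tt ℚ_[p] (i + 1) * (1 + (-1) * β ℚ_[p] (i + 2))) := by ring
      rw [e, norm_neg, norm_mul, hc, one_mul, hc1]
      exact hlt
    have hc2 : ‖2 * tt ℚ_[p] (i + 1) + 1‖ = 1 := by
      by_contra hne
      have h1 : ‖2 * tt ℚ_[p] (i + 1) + 1‖ < 1 := by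
        refine lt_of_le_of_ne (BAS.add_le' ?_ (by simp)) hne
        rw [norm_mul, hc, BAS.norm_two hp, one_mul]
      have h2 : (4 : ℚ_[p]) * (tt ℚ_[p] (i + 2) - tt ℚ_[p] 1) = (2 * tt ℚ_[p] (i + 1) + 1) ^ 2 := by
        simp only [tt]
        ring
      have h4 : ‖(4 : ℚ_[p])‖ = 1 := by
        have : (4 : ℚ_[p]) = 2 * 2 := by norm_num
        rw [this, norm_mul, BAS.norm_two hp, one_mul]
      have h3 : ‖tt ℚ_[p] (i + 2) - tt ℚ_[p] 1‖ < 1 := by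
        have := congrArg norm h2
        rw [norm_mul, h4, one_mul, norm_pow] at this
        rw [this]
        exact pow_lt_one₀ (norm_nonneg _) h1 (by norm_num)
      have h5 := (hu 1 (by omega)).2
      have h6 : ‖tt ℚ_[p] (i + 2) + 1‖ = 1 := by
        rw [← h5]
        apply BAS.norm_of_close
        have e : tt ℚ_[p] (i + 2) + 1 - (tt ℚ_[p] 1 + 1) = tt ℚ_[p] (i + 2) - tt ℚ_[p] 1 := by ring
        rw [e, h5]
        exact h3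
      linarith
    have hc3 : ‖tt ℚ_[p] (i + 1) ^ 2 + tt ℚ_[p] (i + 1) + 1‖ ≤ (p : ℝ)⁻¹ := hηp
    obtain ⟨a₀, ha₀, h⟩ := BAS.first hYJ hXY hB1 hp hηp hη0 hu _ hc hcb
    refine ⟨‖tt ℚ_[p] (i + 2) + 1‖, 1 / ‖tt ℚ_[p] (i + 2) + 1‖, 2 * (i + 2) + 1 + 2, hD0, hηp,
      le_rfl, a₀, ha₀, ?_⟩
    rw [hrad]
    have key : ∀ a : ℚ_[p], ‖a - a₀‖ ≤ (p : ℝ)⁻¹ * ‖tt ℚ_[p] (i + 2) + 1‖ →
        (∀ k < 2 * (i + 2) + 1 + 2, X a k ≠ 0 ∧ X a k ≠ -1) ∧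
        X a (2 * (i + 2) + 1 + 2) = G a (X a (2 * (i + 2) + 1)) := by
      intro a ha
      obtain ⟨hn, h2, h3, -⟩ := h a ha
      have ha0 : a ≠ 0 := norm_pos_iff.1 (hn ▸ hD0)
      set w := X a (2 * (i + 2) + 1) with hw
      have hwn : ‖w‖ = 1 := by
        rw [← hc]
        apply BAS.norm_of_close
        rw [hc]
        exact h3.trans_lt BAS.p_inv_lt
      have hwn1 : ‖w + 1‖ = 1 := by
        rw [← hc1]
        apply BAS.norm_of_close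
        have e : w + 1 - (tt ℚ_[p] (i + 1) + 1) = w - tt ℚ_[p] (i + 1) := by ring
        rw [e, hc1]
        exact h3.trans_lt BAS.p_inv_lt
      have hw0 : w ≠ 0 := norm_pos_iff.1 (by rw [hwn]; exact one_pos)
      have hw1 : w + 1 ≠ 0 := norm_pos_iff.1 (by rw [hwn1]; exact one_pos)
      have e1 : X a (2 * (i + 2) + 1 + 1) = a / (w * (w + 1)) := rfl
      have hx : ‖X a (2 * (i + 2) + 1 + 1)‖ < 1 := by
        rw [e1, norm_div, norm_mul, hwn, hwn1, mul_one, div_one, hn]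
        exact hD1
      have hx0 : X a (2 * (i + 2) + 1 + 1) ≠ 0 := by
        rw [e1]
        exact div_ne_zero ha0 (mul_ne_zero hw0 hw1)
      refine ⟨fun k hk => ?_, ?_⟩
      · rcases Nat.lt_succ_iff_lt_or_eq.1 hk with h' | h'
        · rcases Nat.lt_succ_iff_lt_or_eq.1 h' with h'' | h''
          · exact h2 k h''
          · rw [h'', ← hw]
            exact ⟨hw0, fun h0 => hw1 (by rw [h0]; ring)⟩
        · rw [h']
          refine ⟨hx0, fun h0 => ?_⟩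
          rw [h0, norm_neg, norm_one] at hx
          exact lt_irrefl _ hx
      · have e2 : X a (2 * (i + 2) + 1 + 2) =
            a / (X a (2 * (i + 2) + 1 + 1) * (X a (2 * (i + 2) + 1 + 1) + 1)) := rfl
        rw [e2, e1]
        apply BAS.step_even ha0 hw0 hw1
        have hq : ‖w ^ 2 + w + a‖ = 1 := by
          have h7 : ‖w ^ 2 + w‖ = 1 := by
            have : w ^ 2 + w = w * (w + 1) := by ring
            rw [this, norm_mul, hwn, hwn1, one_mul]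
          rw [← h7]
          apply BAS.norm_of_close
          rw [add_sub_cancel_left, h7, hn]
          exact hD1
        exact norm_pos_iff.1 (by rw [hq]; exact one_pos)
    intro a ha
    obtain ⟨hn, -, h3, h4⟩ := h a ha
    have hap : ‖a‖ ≤ (p : ℝ)⁻¹ := hn ▸ hηp
    have hB : ∀ a' : ℚ_[p], ‖a' - a₀‖ ≤ (p : ℝ)⁻¹ * ‖tt ℚ_[p] (i + 2) + 1‖ →
        ‖G a (X a (2 * (i + 2) + 1)) - G a' (X a' (2 * (i + 2) + 1))‖ =
          ‖X a (2 * (i + 2) + 1) - X a' (2 * (i + 2) + 1)‖ ∧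
        ‖G a (X a (2 * (i + 2) + 1)) + 1‖ ≤ (p : ℝ)⁻¹ := by
      intro a' ha'
      obtain ⟨hn', -, h3', -⟩ := h a' ha'
      apply hB2 p a a' (tt ℚ_[p] (i + 1)) _ _ hap (hn' ▸ hηp) hc hc1 hc2 hc3 h3 h3'
      rw [h4 a' ha', mul_div_assoc', le_div_iff₀ hD0, mul_comm]
      exact mul_le_mul_of_nonneg_right hηp (norm_nonneg _)
    refine ⟨(key a ha).1, ?_, fun a' ha' => ?_⟩
    · rw [(key a ha).2]
      exact (hB a ha).2
    · rw [(key a ha).2, (key a' ha').2, (hB a' ha').1, h4 a' ha']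
      ring

end

end Pool.Agent.K6.H14.PD
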