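import Pool.Agent.K6.H14.PD.Stm

/-!
# DN1: prime divisors of `d n`
-/

set_option autoImplicit false

namespace Pool.Agent.K6.H14.PD

namespace DN1

lemma tt_eq (K : Type) [Field K] [CharZero K] (n : ℕ) :
    tt K n = - (s n : K) / 2 ^ (2 ^ n) := by
  induction n with
  | zero => simp [tt, s]
  | succ n ih =>
    have h2 : (2 : K) ^ (2 ^ n) ≠ 0 := pow_ne_zero _ two_ne_zero
    have h3 : (2 : K) ^ (2 ^ (n + 1)) = 2 ^ (2 ^ n) * 2 ^ (2 ^ n) := by
      rw [← pow_add, pow_succ 2 n, mul_two]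
    rw [tt, ih, s, h3]
    push_cast
    field_simp
    ring

lemma tt_add_one (K : Type) [Field K] [CharZero K] (n : ℕ) :
    tt K n + 1 = (d n : K) / 2 ^ (2 ^ n) := by
  have h2 : (2 : K) ^ (2 ^ n) ≠ 0 := pow_ne_zero _ two_ne_zero
  rw [tt_eq, d]
  push_cast
  field_simp
  ring

lemma even_pow (n : ℕ) : Even ((2 : ℤ) ^ (2 ^ n)) :=
  (even_two).pow_of_ne_zero (pow_ne_zero _ two_ne_zero)

lemma s_odd (n : ℕ) : Odd (s n) := by
  induction n with
  | zero => simp [s]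
  | succ n ih =>
    rw [s]
    exact ih.mul ((even_pow n).sub_odd ih)

lemma d_odd (n : ℕ) : Odd (d n) := (even_pow n).sub_odd (s_odd n)

end DN1

open DN1 in
theorem t_DN1 : S_DN1 := by
  intro p hp n hdvd
  have hp2 : p ≠ 2 := by
    rintro rfl
    have h1 := d_odd n
    rw [← Int.not_even_iff_odd, even_iff_two_dvd] at h1
    exact h1 (by exact_mod_cast hdvd)
  refine ⟨hp2, ?_⟩
  rw [tt_add_one, norm_div, norm_pow]
  have h2 : ‖(2 : ℚ_[p])‖ = 1 := by
    have h3 : ‖((2 : ℤ) : ℚ_[p])‖ = 1 := by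
      refine le_antisymm (Padic.norm_int_le_one 2) (not_lt.1 fun h => ?_)
      rw [Padic.norm_intCast_lt_one_iff] at h
      have h4 : p ∣ 2 := by exact_mod_cast h
      exact hp2 ((Nat.prime_dvd_prime_iff_eq hp.out Nat.prime_two).1 h4)
    simpa using h3
  rw [h2, one_pow, div_one]
  exact (Padic.norm_intCast_lt_one_iff).2 hdvd

end Pool.Agent.K6.H14.PD
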