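import Pool.Agent.K6.H14.PD.Stm

set_option autoImplicit false

namespace Pool.Agent.K6.H14.PD

namespace DN2

theorem two_pow_even (n : ℕ) : (2 : ℤ) ∣ 2 ^ (2 ^ n) :=
  dvd_pow_self 2 (by positivity)

theorem s_bd (n : ℕ) : 0 < s n ∧ 2 * s n ≤ 2 ^ (2 ^ n) := by
  induction n with
  | zero => simp [s]
  | succ n ih =>
    obtain ⟨h1, h2⟩ := ih
    have h3 : (2 : ℤ) ^ (2 ^ (n + 1)) = (2 ^ (2 ^ n)) ^ 2 := by
      rw [← pow_mul, pow_succ]
    rw [h3]
    set T : ℤ := 2 ^ (2 ^ n) with hT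
    have h4 : s (n + 1) = s n * (T - s n) := rfl
    rw [h4]
    constructor
    · have : 0 < T - s n := by linarith
      positivity
    · nlinarith [sq_nonneg (T - 2 * s n)]

theorem s_odd (n : ℕ) : ¬ (2 : ℤ) ∣ s n := by
  induction n with
  | zero => decide
  | succ n ih =>
    intro h
    have h4 : s (n + 1) = s n * (2 ^ (2 ^ n) - s n) := rfl
    rw [h4] at h
    rcases (Int.prime_two.dvd_mul.1 h) with h | h
    · exact ih h
    · exact ih ((dvd_sub_right (two_pow_even n)).1 h)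

theorem d_odd (n : ℕ) : ¬ (2 : ℤ) ∣ d n := fun h => s_odd n ((dvd_sub_right (two_pow_even n)).1 h)

theorem d_ge (n : ℕ) : 2 ≤ d (n + 1) := by
  have h1 := (s_bd (n + 1)).2
  have h2 : (4 : ℤ) ≤ 2 ^ (2 ^ (n + 1)) := by
    have : (2 : ℤ) ^ 2 ≤ 2 ^ (2 ^ (n + 1)) := by
      apply pow_le_pow_right₀ (by norm_num)
      calc 2 = 2 ^ 1 := by norm_num
        _ ≤ 2 ^ (n + 1) := Nat.pow_le_pow_right (by norm_num) (by omega)
    linarith
  show 2 ≤ 2 ^ (2 ^ (n + 1)) - s (n + 1)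
  omega

theorem dvd_s (x : ℤ) (n : ℕ) (h : x ∣ d n) (k : ℕ) : x ∣ s (n + 1 + k) := by
  induction k with
  | zero => exact Dvd.dvd.mul_left h (s n)
  | succ k ih => exact Dvd.dvd.mul_right ih _

theorem not_both (p : ℕ) (hp : p.Prime) (n m : ℕ) (hnm : n < m) (h1 : (p : ℤ) ∣ d n)
    (h2 : (p : ℤ) ∣ d m) : False := by
  obtain ⟨k, rfl⟩ : ∃ k, m = n + 1 + k := ⟨m - (n + 1), by omega⟩
  have h3 := dvd_s p n h1 k
  have h4 : (p : ℤ) ∣ 2 ^ (2 ^ (n + 1 + k)) := by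
    have : (2 : ℤ) ^ (2 ^ (n + 1 + k)) = d (n + 1 + k) + s (n + 1 + k) := by
      unfold d; ring
    rw [this]
    exact dvd_add h2 h3
  have h5 := (Nat.prime_iff_prime_int.1 hp).dvd_of_dvd_pow h4
  have h6 : p ∣ 2 := by exact_mod_cast h5
  have h7 := (Nat.prime_dvd_prime_iff_eq hp Nat.prime_two).1 h6
  subst h7
  exact d_odd n (by exact_mod_cast h1)

end DN2

open DN2 in
theorem t_DN2 : S_DN2 := by
  refine Set.infinite_of_injective_forall_mem (f := fun n : ℕ => (d (n + 1)).natAbs.minFac) ?_ ?_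
  · have hmem : ∀ n : ℕ, ((d (n + 1)).natAbs.minFac : ℤ) ∣ d (n + 1) := fun n =>
      Int.natCast_dvd.2 (Nat.minFac_dvd _)
    have hpr : ∀ n : ℕ, (d (n + 1)).natAbs.minFac.Prime := fun n =>
      Nat.minFac_prime (by have := d_ge n; omega)
    intro n m hnm
    have hnm' : (d (n + 1)).natAbs.minFac = (d (m + 1)).natAbs.minFac := hnm
    by_contra hne
    rcases Nat.lt_or_gt_of_ne hne with h | h
    · refine not_both _ (hpr n) (n + 1) (m + 1) (by omega) (hmem n) ?_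
      rw [hnm']
      exact hmem m
    · refine not_both _ (hpr n) (m + 1) (n + 1) (by omega) ?_ (hmem n)
      rw [hnm']
      exact hmem m
  · intro n
    exact ⟨Nat.minFac_prime (by have := d_ge n; omega), n + 1, Int.natCast_dvd.2 (Nat.minFac_dvd _)⟩

end Pool.Agent.K6.H14.PD
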