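import Pool.Agent.K6.H14.PD.Stm
import Pool.Agent.Y955.PF.Iso

set_option autoImplicit false

namespace Pool.Agent.K6.H14.PD

open Pool.Agent.Y955.PF

theorem t_FIN : S_FIN := by
  intro p _ D C m hD hDp hC hSt
  obtain ⟨a₀, ha₀, h⟩ := hSt
  have hp : (0 : ℝ) < p := by exact_mod_cast (Fact.out : p.Prime).pos
  have hp1 : (1 : ℝ) < p := by exact_mod_cast (Fact.out : p.Prime).one_lt
  have hC0 : 0 < C := lt_of_lt_of_le (by positivity) hC
  have hr : 0 < (p : ℝ)⁻¹ / C := by positivity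
  have hself : ‖a₀ - a₀‖ ≤ (p : ℝ)⁻¹ / C := by
    rw [sub_self, norm_zero]
    exact hr.le
  obtain ⟨h1, h2, h3⟩ := h a₀ hself
  obtain ⟨a, ha, hXa⟩ := iso p (fun a => X a m) a₀ ((p : ℝ)⁻¹ / C) C hr hC0
    (fun x y hx hy => (h x hx).2.2 y hy) (-1) (by
      have e : (-1 : ℚ_[p]) - X a₀ m = -(X a₀ m + 1) := by ring
      simp only [e, norm_neg]
      rw [mul_div_cancel₀ _ hC0.ne']
      exact h2)
  refine ⟨a, ?_, (h a ha).1, hXa⟩
  rintro rfl
  rw [zero_sub, norm_neg, ha₀] at ha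
  rw [le_div_iff₀ hC0] at ha
  have h5 : 1 ≤ D * C := by
    rw [div_le_iff₀ hD] at hC
    linarith
  have h6 : (p : ℝ)⁻¹ < 1 := inv_lt_one_of_one_lt₀ hp1
  linarith

end Pool.Agent.K6.H14.PD
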