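import Pool.Agent.K6.H14.PD.Stm
import Pool.Agent.Y955.PF.PCom

/-! Piece GD of call14p (helper52). -/

set_option autoImplicit false

namespace Pool.Agent.K6.H14.PD

open Pool.Agent.Y955.PF OnePoint

namespace GD


theorem orbit_finite_two {α : Type} (f : α → α) (z : α) (h : f (f z) = z) :
    (Set.range fun n : ℕ => f^[n] z).Finite := by
  have h1 : ∀ n : ℕ, f^[n] z = z ∨ f^[n] z = f z := by
    intro n
    induction n with
    | zero => exact Or.inl rfl
    | succ n ih =>
      rw [Function.iterate_succ_apply']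
      rcases ih with ih | ih
      · right
        rw [ih]
      · left
        rw [ih, h]
  have h2 : (Set.range fun n : ℕ => f^[n] z) ⊆ {z, f z} := by
    rintro _ ⟨n, rfl⟩
    exact h1 n
  exact (Set.toFinite {z, f z}).subset h2

theorem wronskian {K : Type} [Field K] (a z : K) :
    (Polynomial.derivative (Polynomial.C a : Polynomial K) * (Polynomial.X ^ 2 + Polynomial.X) -
      Polynomial.C a * Polynomial.derivative (Polynomial.X ^ 2 + Polynomial.X : Polynomial K)).eval z = -a * (2 * z + 1) := by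
  simp only [Polynomial.derivative_C, Polynomial.derivative_add, Polynomial.derivative_X_pow,
    Polynomial.derivative_X, zero_mul, zero_sub, Polynomial.eval_neg, Polynomial.eval_mul,
    Polynomial.eval_C, Polynomial.eval_add, Polynomial.eval_one, Polynomial.eval_pow,
    Polynomial.eval_X]
  push_cast
  ring

end GD

open GD in
theorem t_GD : S_GD := by
  intro p _ T a hx N hN
  obtain ⟨ha, hstep, hT⟩ := hx
  have hQd : (Polynomial.X ^ 2 + Polynomial.X : Polynomial ℚ_[p]).natDegree = 2 := by
    compute_degree!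
  have hPd : (Polynomial.C a : Polynomial ℚ_[p]).natDegree = 0 := Polynomial.natDegree_C a
  set f := ratMap 2 (Polynomial.C a : Polynomial ℚ_[p]) (Polynomial.X ^ 2 + Polynomial.X) with hf
  have hQe : ∀ y : ℚ_[p], (Polynomial.X ^ 2 + Polynomial.X : Polynomial ℚ_[p]).eval y =
      y * (y + 1) := by
    intro y
    simp only [Polynomial.eval_add, Polynomial.eval_pow, Polynomial.eval_X]
    ring
  -- values
  have hval : ∀ y : ℚ_[p], y * (y + 1) ≠ 0 →
      f (y : OnePoint ℚ_[p]) = ((a / (y * (y + 1)) : ℚ_[p]) : OnePoint ℚ_[p]) := by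
    intro y hy
    rw [hf, ratMap_coe 2 _ _ y (by rw [hQe]; exact hy), hQe, Polynomial.eval_C]
  have hpole : f ((-1 : ℚ_[p]) : OnePoint ℚ_[p]) = ∞ := by
    rw [hf]
    apply ratMap_coe_pole
    rw [hQe]
    ring
  have hzero : f ((0 : ℚ_[p]) : OnePoint ℚ_[p]) = ∞ := by
    rw [hf]
    apply ratMap_coe_pole
    rw [hQe]
    ring
  have hinf : f ∞ = ((0 : ℚ_[p]) : OnePoint ℚ_[p]) := by
    rw [hf]
    unfold ratMap
    rw [OnePoint.elim_infty]
    have h1 : (Polynomial.X ^ 2 + Polynomial.X : Polynomial ℚ_[p]).coeff 2 = 1 := by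
      simp [Polynomial.coeff_X]
    have h2 : (Polynomial.C a : Polynomial ℚ_[p]).coeff 2 = 0 := by
      simp
    rw [h1, h2, if_neg one_ne_zero, zero_div]
  have oinf := orbit_finite_two f ∞ (by rw [hinf, hzero])
  have om1 := orbit_finite_step f _ _ hpole oinf
  have hchain : ∀ k < T, f ((X a k : ℚ_[p]) : OnePoint ℚ_[p]) =
      ((X a (k + 1) : ℚ_[p]) : OnePoint ℚ_[p]) := by
    intro k hk
    obtain ⟨h1, h2⟩ := hstep k hk
    rw [hval (X a k) (mul_ne_zero h1 (fun h => h2 (eq_neg_of_add_eq_zero_left h)))]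
    rfl
  have oT : (Set.range fun n : ℕ => f^[n] ((X a T : ℚ_[p]) : OnePoint ℚ_[p])).Finite := by
    rw [hT]
    exact om1
  have ox0 := orbit_finite_chain f (fun k => ((X a k : ℚ_[p]) : OnePoint ℚ_[p])) T hchain oT 0
    (Nat.zero_le _)
  refine ⟨Polynomial.C a, Polynomial.X ^ 2 + Polynomial.X, ⟨?_, ?_⟩, ?_, X a 0, ?_,
    fun k => ((X a k : ℚ_[p]) : OnePoint ℚ_[p]), rfl, ?_, ?_⟩
  · -- coprime
    exact isCoprime_one_left.of_isCoprime_of_dvd_left
      (Polynomial.isUnit_C.2 (isUnit_iff_ne_zero.2 ha)).dvd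
  · rw [hPd, hQd]
    rfl
  · -- PCF
    intro z hz
    set ι := algebraMap ℚ_[p] (AlgebraicClosure ℚ_[p]) with hι
    cases z with
    | infty =>
      have := orbit_finite_map ι 2 (Polynomial.C a : Polynomial ℚ_[p])
        (Polynomial.X ^ 2 + Polynomial.X) ∞ oinf
      exact this
    | coe z =>
      have hz' : (Polynomial.derivative ((Polynomial.C a : Polynomial ℚ_[p]).map ι) *
          ((Polynomial.X ^ 2 + Polynomial.X : Polynomial ℚ_[p]).map ι) -
          ((Polynomial.C a : Polynomial ℚ_[p]).map ι) * Polynomial.derivative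
            ((Polynomial.X ^ 2 + Polynomial.X : Polynomial ℚ_[p]).map ι)).eval z = 0 := hz
      have e1 : (Polynomial.C a : Polynomial ℚ_[p]).map ι = Polynomial.C (ι a) := by simp
      have e2 : (Polynomial.X ^ 2 + Polynomial.X : Polynomial ℚ_[p]).map ι =
        Polynomial.X ^ 2 + Polynomial.X := by simp
      rw [e1, e2, GD.wronskian] at hz'
      have hιa : -ι a ≠ 0 := by
        rw [Ne, neg_eq_zero, map_eq_zero]
        exact ha
      have h1 := (mul_eq_zero.1 hz').resolve_left hιa
      have h2 : z = ι (X a 0) := by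
        have h3 : ι (X a 0) = -1 / 2 := by
          show ι (-1 / 2) = -1 / 2
          rw [map_div₀, map_neg, map_one, map_ofNat]
        rw [h3]
        have h4 : (2 : AlgebraicClosure ℚ_[p]) ≠ 0 := two_ne_zero
        field_simp
        linear_combination h1
      have := orbit_finite_map ι 2 (Polynomial.C a : Polynomial ℚ_[p])
        (Polynomial.X ^ 2 + Polynomial.X) ((X a 0 : ℚ_[p]) : OnePoint ℚ_[p]) ox0
      rw [OnePoint.map_some] at this
      rw [h2]
      exact this
  · rw [GD.wronskian]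
    have : 2 * X a 0 + 1 = 0 := by
      show 2 * (-1 / 2 : ℚ_[p]) + 1 = 0
      norm_num
    rw [this, mul_zero]
  · intro k hk
    exact (hchain k (by omega)).symm
  · have h1 := injOn_orbit (fun y => a / (y * (y + 1))) (fun k => X a k) T (-1)
      (fun k _ => rfl) hT (fun k hk => (hstep k hk).2)
    intro i hi j hj hij
    exact h1 (le_trans hi hN) (le_trans hj hN) (OnePoint.coe_injective hij)

end Pool.Agent.K6.H14.PD
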