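import Pool.Agent.K6.H14.PD.Stm
import Pool.Agent.Y955.PF.Iso

/-! # Piece STEP (by helper90) -/

set_option autoImplicit false

namespace Pool.Agent.K6.H14.PD

open Pool.Agent.Y955.PF

namespace PSTEP

variable {p : ℕ} [Fact p.Prime]

lemma norm_of_close {x y : ℚ_[p]} (h : ‖x - y‖ < ‖y‖) : ‖x‖ = ‖y‖ := by
  have h1 : ‖(x - y) + y‖ = max ‖x - y‖ ‖y‖ := Padic.add_eq_max_of_ne (ne_of_lt h)
  rw [sub_add_cancel, max_eq_right h.le] at h1
  exact h1

lemma norm_add_le' {x y : ℚ_[p]} {c : ℝ} (hx : ‖x‖ ≤ c) (hy : ‖y‖ ≤ c) : ‖x + y‖ ≤ c :=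
  le_trans (Padic.nonarchimedean x y) (max_le hx hy)

lemma norm_sub_le' {x y : ℚ_[p]} {c : ℝ} (hx : ‖x‖ ≤ c) (hy : ‖y‖ ≤ c) : ‖x - y‖ ≤ c := by
  rw [sub_eq_add_neg]
  exact norm_add_le' hx (by rwa [norm_neg])

lemma norm_add_right {x y : ℚ_[p]} (h : ‖x‖ < ‖y‖) : ‖x + y‖ = ‖y‖ := by
  rw [Padic.add_eq_max_of_ne (ne_of_lt h), max_eq_right h.le]

lemma pinv_pos : (0 : ℝ) < (p : ℝ)⁻¹ := by
  have := (Fact.out : p.Prime).pos
  positivity

lemma pinv_lt : (p : ℝ)⁻¹ < 1 := by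
  have h := (Fact.out : p.Prime).one_lt
  exact inv_lt_one_of_one_lt₀ (by exact_mod_cast h)

end PSTEP

open PSTEP in
theorem t_STEP : S_STEP := by
  intro p _ D C m hD hDp hC hSt
  obtain ⟨a₀, ha₀, hball⟩ := hSt
  have hp0 : (0 : ℝ) < (p : ℝ)⁻¹ := pinv_pos
  have hp1 : (p : ℝ)⁻¹ < 1 := pinv_lt
  have hC0 : 0 < C := lt_of_lt_of_le (by positivity) hC
  have hCD : 1 ≤ C * D := by
    rw [div_le_iff₀ hD] at hC
    exact hC
  have hr0 : 0 < (p : ℝ)⁻¹ / C := by positivity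
  have hrD : (p : ℝ)⁻¹ / C ≤ (p : ℝ)⁻¹ * D := by
    rw [div_le_iff₀ hC0]
    nlinarith
  have hpD : (p : ℝ)⁻¹ * D < D := by nlinarith
  have hD1 : D < 1 := lt_of_le_of_lt hDp hp1
  have ha₀b : ‖a₀ - a₀‖ ≤ (p : ℝ)⁻¹ / C := by rw [sub_self, norm_zero]; exact hr0.le
  obtain ⟨a₁, ha₁, hX₁⟩ := iso p (fun a => X a m) a₀ ((p : ℝ)⁻¹ / C) C hr0 hC0
    (fun x y hx hy => (hball x hx).2.2 y hy) (-1 + a₀) (by
      have h1 := (hball a₀ ha₀b).2.1
      have e : -1 + a₀ - X a₀ m = a₀ - (X a₀ m + 1) := by ring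
      have h2 : C * ((p : ℝ)⁻¹ / C) = (p : ℝ)⁻¹ := by field_simp
      simp only [e, h2]
      exact norm_sub_le' (by rw [ha₀]; exact hDp) h1)
  change X a₁ m = -1 + a₀ at hX₁
  have hn₁ : ‖a₁‖ = D := by
    rw [← ha₀]
    refine norm_of_close (lt_of_le_of_lt ha₁ ?_)
    rw [ha₀]
    linarith
  have hrad : (p : ℝ)⁻¹ / (C / D) = (p : ℝ)⁻¹ / C * D := by field_simp
  -- the facts on the new ball
  have hin : ∀ a : ℚ_[p], ‖a - a₁‖ ≤ (p : ℝ)⁻¹ / (C / D) → ‖a - a₀‖ ≤ (p : ℝ)⁻¹ / C := by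
    intro a ha
    rw [hrad] at ha
    have h1 : ‖a - a₁‖ ≤ (p : ℝ)⁻¹ / C := le_trans ha (by nlinarith)
    have e : a - a₀ = (a - a₁) + (a₁ - a₀) := by ring
    rw [e]
    exact norm_add_le' h1 ha₁
  have hu : ∀ a : ℚ_[p], ‖a - a₁‖ ≤ (p : ℝ)⁻¹ / (C / D) →
      ‖X a m + 1 - a₀‖ ≤ (p : ℝ)⁻¹ * D := by
    intro a ha
    have h1 := (hball a (hin a ha)).2.2 a₁ ha₁
    rw [hX₁] at h1
    have e : X a m + 1 - a₀ = X a m - (-1 + a₀) := by ring
    rw [e, h1]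
    rw [hrad] at ha
    calc C * ‖a - a₁‖ ≤ C * ((p : ℝ)⁻¹ / C * D) := mul_le_mul_of_nonneg_left ha hC0.le
      _ = (p : ℝ)⁻¹ * D := by field_simp
  have hun : ∀ a : ℚ_[p], ‖a - a₁‖ ≤ (p : ℝ)⁻¹ / (C / D) → ‖X a m + 1‖ = D := by
    intro a ha
    rw [← ha₀]
    refine norm_of_close (lt_of_le_of_lt (hu a ha) ?_)
    rw [ha₀]; exact hpD
  have hun1 : ∀ a : ℚ_[p], ‖a - a₁‖ ≤ (p : ℝ)⁻¹ / (C / D) → ‖X a m‖ = 1 := by
    intro a ha
    have h1 : ‖(X a m + 1) + (-1)‖ = ‖(-1 : ℚ_[p])‖ := by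
      refine norm_add_right ?_
      rw [hun a ha, norm_neg, norm_one]
      exact hD1
    rw [norm_neg, norm_one] at h1
    have e : X a m = (X a m + 1) + (-1) := by ring
    rw [e]; exact h1
  have han : ∀ a : ℚ_[p], ‖a - a₁‖ ≤ (p : ℝ)⁻¹ / (C / D) → ‖a‖ = D := by
    intro a ha
    rw [← hn₁]
    refine norm_of_close (lt_of_le_of_lt ha ?_)
    rw [hn₁, hrad]
    have : (p : ℝ)⁻¹ / C * D ≤ (p : ℝ)⁻¹ / C := by nlinarith
    linarith
  have hsucc : ∀ a : ℚ_[p], X a (m + 1) = a / (X a m * (X a m + 1)) := fun a => rfl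
  refine ⟨a₁, hn₁, fun a ha => ?_⟩
  have hua := hun a ha
  have hxa := hun1 a ha
  have hx0 : X a m ≠ 0 := by
    intro h; rw [h, norm_zero] at hxa; exact zero_ne_one hxa
  have hx1 : X a m + 1 ≠ 0 := by
    intro h; rw [h, norm_zero] at hua; exact hD.ne hua
  refine ⟨?_, ?_, ?_⟩
  · intro k hk
    rcases Nat.lt_succ_iff_lt_or_eq.1 hk with hk | hk
    · exact (hball a (hin a ha)).1 k hk
    · rw [hk]
      exact ⟨hx0, fun h => hx1 (by rw [h]; ring)⟩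
  · have e : X a (m + 1) + 1 = ((a - (X a m + 1)) + (X a m + 1) * (X a m + 1)) /
        (X a m * (X a m + 1)) := by
      rw [hsucc, eq_div_iff (mul_ne_zero hx0 hx1), add_mul, div_mul_cancel₀ _ (mul_ne_zero hx0 hx1)]
      ring
    rw [e, norm_div, norm_mul, hxa, hua, one_mul, div_le_iff₀ hD]
    refine norm_add_le' ?_ ?_
    · have e2 : a - (X a m + 1) = (a - a₀) - (X a m + 1 - a₀) := by ring
      rw [e2]
      exact norm_sub_le' (le_trans (hin a ha) hrD) (hu a ha)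
    · rw [norm_mul, hua]
      nlinarith
  · intro a' ha'
    have hua' := hun a' ha'
    have hxa' := hun1 a' ha'
    have hx0' : X a' m ≠ 0 := by
      intro h; rw [h, norm_zero] at hxa'; exact zero_ne_one hxa'
    have hx1' : X a' m + 1 ≠ 0 := by
      intro h; rw [h, norm_zero] at hua'; exact hD.ne hua'
    have hdiff := (hball a (hin a ha)).2.2 a' (hin a' ha')
    have hdiff' : ‖X a' m - X a m‖ = C * ‖a - a'‖ := by rw [norm_sub_rev]; exact hdiff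
    have e : X a (m + 1) - X a' (m + 1) =
        ((a - a') * (X a' m * (X a' m + 1)) + a' * ((X a' m - X a m) * (X a' m + X a m + 1))) /
          ((X a m * (X a m + 1)) * (X a' m * (X a' m + 1))) := by
      rw [hsucc, hsucc, div_sub_div _ _ (mul_ne_zero hx0 hx1) (mul_ne_zero hx0' hx1')]
      congr 1
      ring
    have hsum : ‖X a' m + X a m + 1‖ = 1 := by
      have e2 : X a' m + X a m + 1 = (X a' m + 1) + X a m := by ring
      rw [e2, norm_add_right, hxa]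
      rw [hua', hxa]; exact hD1
    rw [e, norm_div, norm_mul (X a m * (X a m + 1)), norm_mul (X a m), norm_mul (X a' m), hxa,
      hxa', hua, hua', one_mul]
    rcases eq_or_ne a a' with rfl | hne
    · simp
    · have hpos : 0 < ‖a - a'‖ := norm_pos_iff.2 (sub_ne_zero.2 hne)
      have hn1 : ‖(a - a') * (X a' m * (X a' m + 1))‖ = ‖a - a'‖ * D := by
        rw [norm_mul, norm_mul, hxa', hua', one_mul]
      have hn2 : ‖a' * ((X a' m - X a m) * (X a' m + X a m + 1))‖ = D * (C * ‖a - a'‖) := by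
        rw [norm_mul, norm_mul, hsum, mul_one, han a' ha', hdiff']
      rw [norm_add_right, hn2]
      · field_simp
      · rw [hn1, hn2]
        have h3 : ‖a - a'‖ * D < ‖a - a'‖ := by nlinarith
        have h4 : ‖a - a'‖ ≤ D * (C * ‖a - a'‖) := by nlinarith
        linarith

end Pool.Agent.K6.H14.PD
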