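import Pool.Agent.K6.H14.PD.Stm

/-!
Piece TN (helper35): the first index at which the orbit of `-1/2` comes near to `-1`.
-/

set_option autoImplicit false

namespace Pool.Agent.K6.H14.PD

namespace TN

theorem tt_eq {K : Type} [Field K] (h2 : (2 : K) ≠ 0) (n : ℕ) :
    tt K n = -((s n : ℤ) : K) / 2 ^ (2 ^ n) := by
  induction n with
  | zero => simp [tt, s]
  | succ n ih =>
    have e : (2 : K) ^ (2 ^ (n + 1)) = 2 ^ (2 ^ n) * 2 ^ (2 ^ n) := by
      rw [pow_succ 2 n, pow_mul, sq]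
    have h3 : (2 : K) ^ (2 ^ n) ≠ 0 := pow_ne_zero _ h2
    rw [tt, ih, s, e]
    push_cast
    field_simp
    ring

theorem odd_s (n : ℕ) : Odd (s n) := by
  induction n with
  | zero => simp [s]
  | succ n ih =>
    rw [s]
    refine ih.mul ?_
    exact Even.sub_odd (Even.pow_of_ne_zero even_two (by positivity)) ih

theorem d_ne (n : ℕ) : d n ≠ 0 := by
  have h : Odd (d n) :=
    Even.sub_odd (Even.pow_of_ne_zero even_two (by positivity)) (odd_s n)
  intro h0
  rw [h0] at h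
  exact absurd h (by decide)

theorem tt_add (K : Type) [Field K] (h2 : (2 : K) ≠ 0) (n : ℕ) :
    tt K n + 1 = ((d n : ℤ) : K) / 2 ^ (2 ^ n) := by
  have h3 : (2 : K) ^ (2 ^ n) ≠ 0 := pow_ne_zero _ h2
  rw [tt_eq h2, d]
  push_cast
  field_simp
  ring

end TN

open TN in
theorem t_TN : S_TN := by
  classical
  intro p _ n hp hn
  have hp2 : ‖(2 : ℚ_[p])‖ = 1 := by
    have h1 : ¬ ‖((2 : ℕ) : ℚ_[p])‖ < 1 := by
      rw [Padic.norm_natCast_lt_one_iff]
      intro h
      exact hp ((Nat.prime_dvd_prime_iff_eq Fact.out Nat.prime_two).1 h)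
    have h2 : ‖((2 : ℕ) : ℚ_[p])‖ ≤ 1 := by
      have := Padic.norm_int_le_one (p := p) 2
      exact_mod_cast this
    have h3 : ((2 : ℕ) : ℚ_[p]) = 2 := by norm_num
    rw [h3] at h1 h2
    exact le_antisymm h2 (not_lt.1 h1)
  have h20 : (2 : ℚ_[p]) ≠ 0 := by norm_num
  have hle : ∀ j, ‖tt ℚ_[p] j‖ ≤ 1 := by
    intro j
    induction j with
    | zero => rw [tt, norm_div, norm_neg, norm_one, hp2]; norm_num
    | succ j ih =>
      rw [tt]
      refine (Padic.nonarchimedean _ _).trans (max_le ?_ ih)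
      rw [norm_pow]
      exact pow_le_one₀ (norm_nonneg _) ih
  have hle1 : ∀ j, ‖tt ℚ_[p] j + 1‖ ≤ 1 := by
    intro j
    refine (Padic.nonarchimedean _ _).trans (max_le (hle j) ?_)
    rw [norm_one]
  have hex : ∃ m, ‖tt ℚ_[p] m + 1‖ < 1 := ⟨n, hn⟩
  have hm := Nat.find_spec hex
  have hmn : Nat.find hex ≤ n := Nat.find_min' hex hn
  have hmin : ∀ j < Nat.find hex, ¬ ‖tt ℚ_[p] j + 1‖ < 1 := fun j hj => Nat.find_min hex hj
  generalize Nat.find hex = m at hm hmn hmin
  refine ⟨m, ?_, hmn, ?_, ?_, ?_⟩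
  · rcases Nat.eq_zero_or_pos m with h | h
    · exfalso
      rw [h, tt] at hm
      have e : (-1 / 2 + 1 : ℚ_[p]) = 1 / 2 := by norm_num
      rw [e, norm_div, norm_one, hp2] at hm
      norm_num at hm
    · exact h
  · have h1 := (Padic.norm_le_pow_iff_norm_lt_pow_add_one (tt ℚ_[p] m + 1) (-1)).2 (by
      simpa using hm)
    simpa using h1
  · rw [tt_add _ h20]
    exact div_ne_zero (by exact_mod_cast d_ne m) (pow_ne_zero _ h20)
  · intro j hj
    refine ⟨?_, le_antisymm (hle1 j) (not_lt.1 (hmin j hj))⟩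
    by_contra hne
    have hlt : ‖tt ℚ_[p] j‖ < 1 := lt_of_le_of_ne (hle j) hne
    have hall : ∀ i, ‖tt ℚ_[p] (j + i)‖ < 1 := by
      intro i
      induction i with
      | zero => exact hlt
      | succ i ih =>
        rw [← add_assoc, tt]
        have e : tt ℚ_[p] (j + i) ^ 2 + tt ℚ_[p] (j + i) =
          tt ℚ_[p] (j + i) * (tt ℚ_[p] (j + i) + 1) := by ring
        rw [e, norm_mul]
        exact mul_lt_one_of_nonneg_of_lt_one_left (norm_nonneg _) ih (hle1 _)
    have h1 := hall (m - j)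
    rw [Nat.add_sub_cancel' hj.le] at h1
    have h2 : ‖(1 : ℚ_[p])‖ < 1 := by
      have e : (1 : ℚ_[p]) = (tt ℚ_[p] m + 1) + (-tt ℚ_[p] m) := by ring
      rw [e]
      refine (Padic.nonarchimedean _ _).trans_lt (max_lt hm ?_)
      rwa [norm_neg]
    rw [norm_one] at h2
    exact lt_irrefl _ h2

end Pool.Agent.K6.H14.PD
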