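import Pool.Agent.K6.H14.PD.Stm

/-! Piece XY (helper29, for helper14). -/

set_option autoImplicit false

namespace Pool.Agent.K6.H14.PD

open Pool.Agent.Y955.PF

namespace XY

variable {p : ℕ} [Fact p.Prime]

/-- an element close to an element of norm one has norm one -/
lemma norm_one_of_close {x y : ℚ_[p]} (hy : ‖y‖ = 1) (h : ‖x - y‖ < 1) : ‖x‖ = 1 := by
  have h1 : ‖(x - y) + y‖ = max ‖x - y‖ ‖y‖ :=
    IsUltrametricDist.norm_add_eq_max_of_norm_ne_norm (by rw [hy]; exact h.ne)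
  rw [sub_add_cancel, hy, max_eq_right h.le] at h1
  exact h1

lemma close {n : ℕ} {D : ℝ} (h : S_YJ) (hp : p ≠ 2) (hD : 0 < D) (hD1 : D < 1)
    (ht : ∀ j < n, ‖tt ℚ_[p] j‖ = 1 ∧ ‖tt ℚ_[p] j + 1‖ = 1) {a : ℚ_[p]} (ha : ‖a‖ ≤ D) {j : ℕ}
    (hj : j ≤ n) : ‖Y a j - tt ℚ_[p] j‖ < 1 := by
  obtain ⟨h1, h2, h3⟩ := h p n D hp hD hD1 ht j hj
  have h4 := h3 a 0 ha (by rw [norm_zero]; exact hD.le)
  rw [h2, sub_zero] at h4
  have h5 : ‖Y a j - tt ℚ_[p] j‖ ≤ max ‖Y a j - tt ℚ_[p] j - β ℚ_[p] j * a‖ ‖β ℚ_[p] j * a‖ := by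
    have := IsUltrametricDist.norm_add_le_max (Y a j - tt ℚ_[p] j - β ℚ_[p] j * a)
      (β ℚ_[p] j * a)
    rwa [sub_add_cancel] at this
  refine h5.trans_lt (max_lt ?_ ?_)
  · refine h4.trans_lt ?_
    nlinarith [norm_nonneg a]
  · rw [norm_mul]
    have : ‖β ℚ_[p] j‖ * ‖a‖ ≤ 1 * ‖a‖ := mul_le_mul_of_nonneg_right h1 (norm_nonneg a)
    linarith

end XY

open XY in
theorem t_XY (h : S_YJ) : S_XY := by
  intro p _ n D hp hD hD1 ht a ha0 ha j
  induction j with
  | zero =>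
    intro _
    exact ⟨rfl, fun k hk => absurd hk (by omega)⟩
  | succ j ih =>
    intro hj
    obtain ⟨h1, h2⟩ := ih (by omega)
    have hc := close h hp hD hD1 ht ha (j := j) (by omega)
    obtain ⟨t1, t2⟩ := ht j (by omega)
    have hy1 : ‖Y a j‖ = 1 := norm_one_of_close t1 hc
    have hy2 : ‖Y a j + 1‖ = 1 := norm_one_of_close t2 (by rwa [add_sub_add_right_eq_sub])
    have hy0 : Y a j ≠ 0 := by
      intro h0
      rw [h0, norm_zero] at hy1
      exact zero_ne_one hy1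
    have hy0' : Y a j + 1 ≠ 0 := by
      intro h0
      rw [h0, norm_zero] at hy2
      exact zero_ne_one hy2
    have ha1 : ‖a‖ < 1 := ha.trans_lt hD1
    set q : ℚ_[p] := Y a j * (Y a j + 1) with hq
    have hq1 : ‖q‖ = 1 := by rw [hq, norm_mul, hy1, hy2, one_mul]
    have hq0 : q ≠ 0 := mul_ne_zero hy0 hy0'
    have hqa : q + a ≠ 0 := by
      intro h0
      have h3 : ‖a - (-q)‖ < 1 := by
        rw [sub_neg_eq_add, add_comm, h0, norm_zero]
        exact one_pos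
      have h4 : ‖a‖ = 1 := norm_one_of_close (by rw [norm_neg, hq1]) h3
      exact ha1.ne h4
    have e1 : X a (2 * j + 1) = a / q := by
      change a / (X a (2 * j) * (X a (2 * j) + 1)) = a / q
      rw [h1]
    have e2 : X a (2 * j + 2) = Y a (j + 1) := by
      change a / (X a (2 * j + 1) * (X a (2 * j + 1) + 1)) =
        (Y a j ^ 2 + Y a j) ^ 2 / (Y a j ^ 2 + Y a j + a)
      have h3 : Y a j ^ 2 + Y a j = q := by rw [hq]; ring
      rw [e1, h3]
      have h4 : a / q + 1 = (q + a) / q := by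
        field_simp
        ring
      rw [h4]
      field_simp
    refine ⟨e2, fun k hk => ?_⟩
    have hk' : k < 2 * j ∨ k = 2 * j ∨ k = 2 * j + 1 := by omega
    rcases hk' with hk' | rfl | rfl
    · exact h2 k hk'
    · rw [h1]
      exact ⟨hy0, fun h3 => hy0' (by rw [h3]; ring)⟩
    · rw [e1]
      refine ⟨div_ne_zero ha0 hq0, fun h3 => ?_⟩
      have h4 : ‖a / q‖ = ‖a‖ := by rw [norm_div, hq1, div_one]
      rw [h3, norm_neg, norm_one] at h4
      exact ha1.ne h4.symm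

end Pool.Agent.K6.H14.PD
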