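import Pool.Agent.K6.H14.PD.Stm

set_option autoImplicit false

/-! # Piece YJ: the orbit of `-1/2` under the second iterate -/

namespace Pool.Agent.K6.H14.PD.YJ

open Pool.Agent.K6.H14.PD

variable {p : ℕ} [Fact p.Prime]

theorem add_le (x y : ℚ_[p]) (r : ℝ) (hx : ‖x‖ ≤ r) (hy : ‖y‖ ≤ r) : ‖x + y‖ ≤ r :=
  (Padic.nonarchimedean x y).trans (max_le hx hy)

theorem sub_le (x y : ℚ_[p]) (r : ℝ) (hx : ‖x‖ ≤ r) (hy : ‖y‖ ≤ r) : ‖x - y‖ ≤ r := by
  rw [sub_eq_add_neg]
  exact add_le _ _ _ hx (by rwa [norm_neg])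

theorem norm_one_of (x y : ℚ_[p]) (hx : ‖x‖ = 1) (h : ‖y - x‖ < 1) : ‖y‖ = 1 := by
  have h1 : ‖y - x‖ ≠ ‖x‖ := by rw [hx]; exact h.ne
  have h2 := Padic.add_eq_max_of_ne h1
  rw [sub_add_cancel, hx, max_eq_right h.le] at h2
  exact h2

theorem norm_two (hp : p ≠ 2) : ‖(2 : ℚ_[p])‖ = 1 := by
  have h : ‖((2 : ℕ) : ℚ_[p])‖ = 1 := by
    rw [Padic.norm_natCast_eq_one_iff]
    exact (Nat.coprime_primes (Fact.out : p.Prime) Nat.prime_two).2 hp
  exact_mod_cast h

theorem norm_tt (hp : p ≠ 2) (j : ℕ) : ‖tt ℚ_[p] j‖ ≤ 1 := by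
  induction j with
  | zero =>
    change ‖(-1 / 2 : ℚ_[p])‖ ≤ 1
    rw [norm_div, norm_neg, norm_one, norm_two hp]
    norm_num
  | succ j ih =>
    change ‖tt ℚ_[p] j ^ 2 + tt ℚ_[p] j‖ ≤ 1
    refine add_le _ _ _ ?_ ih
    rw [norm_pow]
    exact pow_le_one₀ (norm_nonneg _) ih

theorem norm_beta (hp : p ≠ 2) (j : ℕ) : ‖β ℚ_[p] j‖ ≤ 1 := by
  induction j with
  | zero => exact (norm_zero).le.trans zero_le_one
  | succ j ih =>
    change ‖(2 * tt ℚ_[p] j + 1) * β ℚ_[p] j - 1‖ ≤ 1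
    refine sub_le _ _ _ ?_ norm_one.le
    rw [norm_mul]
    refine mul_le_one₀ (add_le _ _ _ ?_ norm_one.le) (norm_nonneg _) ih
    rw [norm_mul, norm_two hp, one_mul]
    exact norm_tt hp j

end Pool.Agent.K6.H14.PD.YJ

namespace Pool.Agent.K6.H14.PD

open YJ

theorem YJ.main (p : ℕ) [Fact p.Prime] (n : ℕ) (D : ℝ) (hp : p ≠ 2) (hD : 0 < D) (hD1 : D < 1)
    (ht : ∀ j < n, ‖tt ℚ_[p] j‖ = 1 ∧ ‖tt ℚ_[p] j + 1‖ = 1) : ∀ j ≤ n,
    Y (0 : ℚ_[p]) j = tt ℚ_[p] j ∧ ∀ a a' : ℚ_[p], ‖a‖ ≤ D → ‖a'‖ ≤ D →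
    ‖Y a j - Y a' j - β ℚ_[p] j * (a - a')‖ ≤ D * ‖a - a'‖ := by
  intro j
  induction j with
  | zero =>
    intro _
    refine ⟨rfl, fun a a' _ _ => ?_⟩
    change ‖(-1 / 2 : ℚ_[p]) - (-1 / 2) - 0 * (a - a')‖ ≤ _
    rw [sub_self, zero_mul, sub_zero, norm_zero]
    positivity
  | succ j ih =>
    intro hj
    obtain ⟨h0, h1⟩ := ih (by omega)
    obtain ⟨ht1, ht2⟩ := ht j (by omega)
    set τ : ℚ_[p] := tt ℚ_[p] j with hτ
    set b : ℚ_[p] := β ℚ_[p] j with hb
    have hb1 : ‖b‖ ≤ 1 := norm_beta hp j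
    -- distance from `tt`
    have hclose : ∀ a : ℚ_[p], ‖a‖ ≤ D → ‖Y a j - τ‖ ≤ ‖a‖ := by
      intro a ha
      have h := h1 a 0 ha (by rw [norm_zero]; exact hD.le)
      rw [h0, sub_zero] at h
      have e : Y a j - τ = (Y a j - τ - b * a) + b * a := by ring
      rw [e]
      refine add_le _ _ _ (h.trans ?_) ?_
      · exact mul_le_of_le_one_left (norm_nonneg _) hD1.le
      · rw [norm_mul]
        exact mul_le_of_le_one_left (norm_nonneg _) hb1
    have hq : ∀ a : ℚ_[p], ‖a‖ ≤ D → ‖Y a j‖ = 1 ∧ ‖Y a j + 1‖ = 1 := by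
      intro a ha
      have h := hclose a ha
      refine ⟨norm_one_of τ _ ht1 ((h.trans ha).trans_lt hD1), ?_⟩
      refine norm_one_of (τ + 1) _ ht2 ?_
      rw [add_sub_add_right_eq_sub]
      exact (h.trans ha).trans_lt hD1
    have hq1 : ∀ a : ℚ_[p], ‖a‖ ≤ D → ‖Y a j ^ 2 + Y a j‖ = 1 := by
      intro a ha
      have e : Y a j ^ 2 + Y a j = Y a j * (Y a j + 1) := by ring
      rw [e, norm_mul, (hq a ha).1, (hq a ha).2, one_mul]
    have hqa : ∀ a : ℚ_[p], ‖a‖ ≤ D → ‖Y a j ^ 2 + Y a j + a‖ = 1 := by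
      intro a ha
      refine norm_one_of (Y a j ^ 2 + Y a j) _ (hq1 a ha) ?_
      rw [add_sub_cancel_left]
      exact ha.trans_lt hD1
    refine ⟨?_, ?_⟩
    · change G (0 : ℚ_[p]) (Y 0 j) = τ ^ 2 + τ
      rw [h0]
      unfold G
      have hne : τ ^ 2 + τ ≠ 0 := by
        intro h
        have h2 := hq1 0 (by rw [norm_zero]; exact hD.le)
        rw [h0, h, norm_zero] at h2
        exact zero_ne_one h2
      rw [add_zero, sq (τ ^ 2 + τ), mul_div_assoc, div_self hne, mul_one]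
    · intro a a' ha ha'
      have h := h1 a a' ha ha'
      set y : ℚ_[p] := Y a j with hy
      set y' : ℚ_[p] := Y a' j with hy'
      have hyy : ‖y - y'‖ ≤ ‖a - a'‖ := by
        have e : y - y' = (y - y' - b * (a - a')) + b * (a - a') := by ring
        rw [e]
        refine add_le _ _ _ (h.trans ?_) ?_
        · exact mul_le_of_le_one_left (norm_nonneg _) hD1.le
        · rw [norm_mul]
          exact mul_le_of_le_one_left (norm_nonneg _) hb1
      obtain ⟨hy1, hy2⟩ := hq a ha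
      obtain ⟨hy1', hy2'⟩ := hq a' ha'
      set q : ℚ_[p] := y ^ 2 + y with hqd
      set q' : ℚ_[p] := y' ^ 2 + y' with hqd'
      have nq : ‖q‖ = 1 := hq1 a ha
      have nq' : ‖q'‖ = 1 := hq1 a' ha'
      have nqa : ‖q + a‖ = 1 := hqa a ha
      have nqa' : ‖q' + a'‖ = 1 := hqa a' ha'
      have ne1 : q + a ≠ 0 := fun h => by rw [h, norm_zero] at nqa; exact zero_ne_one nqa
      have ne2 : q' + a' ≠ 0 := fun h => by rw [h, norm_zero] at nqa'; exact zero_ne_one nqa'
      have hqq : ‖q - q'‖ ≤ ‖a - a'‖ := by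
        have e : q - q' = (y - y') * (y + y' + 1) := by rw [hqd, hqd']; ring
        rw [e, norm_mul]
        refine (mul_le_of_le_one_right (norm_nonneg _) ?_).trans hyy
        have e2 : y + y' + 1 = y + (y' + 1) := by ring
        rw [e2]
        exact add_le _ _ _ hy1.le hy2'.le
      -- the two main terms
      have m1 : ‖(q ^ 2 / (q + a) - q' ^ 2 / (q' + a')) - ((q - q') - (a - a'))‖ ≤
          D * ‖a - a'‖ := by
        have e : (q ^ 2 / (q + a) - q' ^ 2 / (q' + a')) - ((q - q') - (a - a')) =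
            ((q * q' - (q + a) * (q' + a')) * (q - q') -
              (q' ^ 2 - (q + a) * (q' + a')) * (a - a') + (q ^ 2 - q' ^ 2) * a') /
              ((q + a) * (q' + a')) := by
          field_simp
          ring
        rw [e, norm_div, norm_mul (q + a), nqa, nqa', one_mul, div_one]
        have nD : ‖a - a'‖ ≤ D := sub_le _ _ _ ha ha'
        have c1 : ‖q * q' - (q + a) * (q' + a')‖ ≤ D := by
          have e3 : q * q' - (q + a) * (q' + a') = -(a * (q' + a')) - q * a' := by ring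
          rw [e3]
          refine sub_le _ _ _ ?_ ?_
          · rw [norm_neg, norm_mul, nqa', mul_one]
            exact ha
          · rw [norm_mul, nq, one_mul]
            exact ha'
        have c2 : ‖q' ^ 2 - (q + a) * (q' + a')‖ ≤ D := by
          have e3 : q' ^ 2 - (q + a) * (q' + a') =
              (q * q' - (q + a) * (q' + a')) - q' * (q - q') := by ring
          rw [e3]
          refine sub_le _ _ _ c1 ?_
          rw [norm_mul, nq', one_mul]
          exact hqq.trans nD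
        refine add_le _ _ _ (sub_le _ _ _ ?_ ?_) ?_
        · rw [norm_mul]
          exact mul_le_mul c1 hqq (norm_nonneg _) hD.le
        · rw [norm_mul]
          exact mul_le_mul_of_nonneg_right c2 (norm_nonneg _)
        · have e3 : q ^ 2 - q' ^ 2 = (q - q') * (q + q') := by ring
          rw [norm_mul, e3, norm_mul, mul_comm]
          refine mul_le_mul ha' ?_ (by positivity) hD.le
          exact (mul_le_of_le_one_right (norm_nonneg _)
            (add_le _ _ _ nq.le nq'.le)).trans hqq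
      have m2 : ‖(q - q') - b * (2 * τ + 1) * (a - a')‖ ≤ D * ‖a - a'‖ := by
        have e : (q - q') - b * (2 * τ + 1) * (a - a') =
            (y - y' - b * (a - a')) * (y + y' + 1) + b * (a - a') * (y + y' - 2 * τ) := by
          rw [hqd, hqd']
          ring
        rw [e]
        refine add_le _ _ _ ?_ ?_
        · rw [norm_mul]
          refine (mul_le_of_le_one_right (norm_nonneg _) ?_).trans h
          have e2 : y + y' + 1 = y + (y' + 1) := by ring
          rw [e2]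
          exact add_le _ _ _ hy1.le hy2'.le
        · have c : ‖y + y' - 2 * τ‖ ≤ D := by
            have e2 : y + y' - 2 * τ = (y - τ) + (y' - τ) := by ring
            rw [e2]
            exact add_le _ _ _ ((hclose a ha).trans ha) ((hclose a' ha').trans ha')
          rw [norm_mul, mul_comm]
          refine mul_le_mul c ?_ (norm_nonneg _) hD.le
          rw [norm_mul]
          exact mul_le_of_le_one_left (norm_nonneg _) hb1
      change ‖q ^ 2 / (q + a) - q' ^ 2 / (q' + a') - ((2 * τ + 1) * b - 1) * (a - a')‖ ≤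
        D * ‖a - a'‖
      have e : q ^ 2 / (q + a) - q' ^ 2 / (q' + a') - ((2 * τ + 1) * b - 1) * (a - a') =
          ((q ^ 2 / (q + a) - q' ^ 2 / (q' + a')) - ((q - q') - (a - a'))) +
            ((q - q') - b * (2 * τ + 1) * (a - a')) := by ring
      rw [e]
      exact add_le _ _ _ m1 m2

theorem t_YJ : S_YJ := fun p _ n D hp hD hD1 ht j hj =>
  ⟨norm_beta hp j, (YJ.main p n D hp hD hD1 ht j hj).1, (YJ.main p n D hp hD hD1 ht j hj).2⟩

end Pool.Agent.K6.H14.PD
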