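import Pool.Agent.Y955.PF.Stm

/-!
# Quadratic postcritically finite maps `a / (z (z + 1))` over `ℚ_p`, `p` odd: statements of the pieces

The critical points are `-1/2` and `∞`, and `∞ → 0 → ∞`, `-1 → ∞`. For small `a` the second iterate is
close to `z ^ 2 + z` at the points `z` with `|z| = |z + 1| = 1`.
-/

set_option autoImplicit false

namespace Pool.Agent.K6.H14.PD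

open Pool.Agent.Y955.PF

noncomputable section

/-- the orbit of `-1/2` under `z ^ 2 + z` -/
def tt (K : Type) [Field K] : ℕ → K
  | 0 => -1 / 2
  | n + 1 => tt K n ^ 2 + tt K n

/-- the orbit of `-1/2` under `a / (z (z + 1))` -/
def X {K : Type} [Field K] (a : K) : ℕ → K
  | 0 => -1 / 2
  | n + 1 => a / (X a n * (X a n + 1))

/-- the second iterate of `a / (z (z + 1))` -/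
def G {K : Type} [Field K] (a z : K) : K := (z ^ 2 + z) ^ 2 / (z ^ 2 + z + a)

/-- the orbit of `-1/2` under the second iterate -/
def Y {K : Type} [Field K] (a : K) : ℕ → K
  | 0 => -1 / 2
  | n + 1 => G a (Y a n)

/-- the derivatives of `Y a n` with respect to `a` at `a = 0` -/
def β (K : Type) [Field K] : ℕ → K
  | 0 => 0
  | n + 1 => (2 * tt K n + 1) * β K n - 1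

/-- `tt n = - s n / 2 ^ (2 ^ n)` -/
def s : ℕ → ℤ
  | 0 => 1
  | n + 1 => s n * (2 ^ (2 ^ n) - s n)

/-- `tt n + 1 = d n / 2 ^ (2 ^ n)` -/
def d (n : ℕ) : ℤ := 2 ^ (2 ^ n) - s n

/-- an orbit of `-1/2` which ends in `-1` -/
def DataE (p : ℕ) [Fact p.Prime] (T : ℕ) (a : ℚ_[p]) : Prop :=
  a ≠ 0 ∧ (∀ k < T, X a k ≠ 0 ∧ X a k ≠ -1) ∧ X a T = -1

/-- on the ball with centre `a₀`, `‖a₀‖ = D` and radius `p⁻¹ / C` the map `a ↦ X a m` is a similarity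
with factor `C` and has values close to `-1` -/
def St (p : ℕ) [Fact p.Prime] (D C : ℝ) (m : ℕ) : Prop :=
  ∃ a₀ : ℚ_[p], ‖a₀‖ = D ∧ ∀ a : ℚ_[p], ‖a - a₀‖ ≤ (p : ℝ)⁻¹ / C →
    (∀ k < m, X a k ≠ 0 ∧ X a k ≠ -1) ∧ ‖X a m + 1‖ ≤ (p : ℝ)⁻¹ ∧
    ∀ a' : ℚ_[p], ‖a' - a₀‖ ≤ (p : ℝ)⁻¹ / C → ‖X a m - X a' m‖ = C * ‖a - a'‖

/-- GD -/
def S_GD : Prop := ∀ (p : ℕ) [Fact p.Prime] (T : ℕ) (a : ℚ_[p]), DataE p T a →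
  ∀ N ≤ T, Good p 2 N

/-- YJ -/
def S_YJ : Prop := ∀ (p : ℕ) [Fact p.Prime] (n : ℕ) (D : ℝ), p ≠ 2 → 0 < D → D < 1 →
  (∀ j < n, ‖tt ℚ_[p] j‖ = 1 ∧ ‖tt ℚ_[p] j + 1‖ = 1) → ∀ j ≤ n,
  ‖β ℚ_[p] j‖ ≤ 1 ∧ Y (0 : ℚ_[p]) j = tt ℚ_[p] j ∧ ∀ a a' : ℚ_[p], ‖a‖ ≤ D → ‖a'‖ ≤ D →
    ‖Y a j - Y a' j - β ℚ_[p] j * (a - a')‖ ≤ D * ‖a - a'‖

/-- XY -/
def S_XY : Prop := ∀ (p : ℕ) [Fact p.Prime] (n : ℕ) (D : ℝ), p ≠ 2 → 0 < D → D < 1 →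
  (∀ j < n, ‖tt ℚ_[p] j‖ = 1 ∧ ‖tt ℚ_[p] j + 1‖ = 1) → ∀ a : ℚ_[p], a ≠ 0 → ‖a‖ ≤ D →
  ∀ j ≤ n, X a (2 * j) = Y a j ∧ ∀ k < 2 * j, X a k ≠ 0 ∧ X a k ≠ -1

/-- TN -/
def S_TN : Prop := ∀ (p : ℕ) [Fact p.Prime] (n : ℕ), p ≠ 2 → ‖tt ℚ_[p] n + 1‖ < 1 →
  ∃ m : ℕ, 1 ≤ m ∧ m ≤ n ∧ ‖tt ℚ_[p] m + 1‖ ≤ (p : ℝ)⁻¹ ∧ tt ℚ_[p] m + 1 ≠ 0 ∧
    ∀ j < m, ‖tt ℚ_[p] j‖ = 1 ∧ ‖tt ℚ_[p] j + 1‖ = 1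

/-- DN1 -/
def S_DN1 : Prop := ∀ (p : ℕ) [Fact p.Prime] (n : ℕ), (p : ℤ) ∣ d n →
  p ≠ 2 ∧ ‖tt ℚ_[p] n + 1‖ < 1

/-- DN2 -/
def S_DN2 : Prop := {p : ℕ | p.Prime ∧ ∃ n, (p : ℤ) ∣ d n}.Infinite

/-- B1 -/
def S_B1 : Prop := ∀ (p : ℕ) [Fact p.Prime] (u : ℚ_[p] → ℚ_[p]) (η b c : ℚ_[p]), η ≠ 0 →
  ‖η‖ ≤ (p : ℝ)⁻¹ → ‖b‖ ≤ 1 → u 0 = η → (∀ a a' : ℚ_[p], ‖a‖ ≤ ‖η‖ → ‖a'‖ ≤ ‖η‖ →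
    ‖u a - u a' - b * (a - a')‖ ≤ ‖η‖ * ‖a - a'‖) → ‖c‖ = 1 → ‖1 + c * b‖ = 1 →
  ∃ a₀ : ℚ_[p], ‖a₀‖ = ‖η‖ ∧ a₀ / ((u a₀ - 1) * u a₀) = c ∧
    ∀ a a' : ℚ_[p], ‖a - a₀‖ ≤ ‖η‖ * (p : ℝ)⁻¹ → ‖a' - a₀‖ ≤ ‖η‖ * (p : ℝ)⁻¹ →
      ‖u a‖ = ‖η‖ ∧ ‖a / ((u a - 1) * u a) - a' / ((u a' - 1) * u a')‖ = ‖a - a'‖ / ‖η‖

/-- B2 -/
def S_B2 : Prop := ∀ (p : ℕ) [Fact p.Prime] (a a' c y y' : ℚ_[p]), ‖a‖ ≤ (p : ℝ)⁻¹ →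
  ‖a'‖ ≤ (p : ℝ)⁻¹ → ‖c‖ = 1 → ‖c + 1‖ = 1 → ‖2 * c + 1‖ = 1 → ‖c ^ 2 + c + 1‖ ≤ (p : ℝ)⁻¹ →
  ‖y - c‖ ≤ (p : ℝ)⁻¹ → ‖y' - c‖ ≤ (p : ℝ)⁻¹ → ‖a - a'‖ ≤ (p : ℝ)⁻¹ * ‖y - y'‖ →
  ‖G a y - G a' y'‖ = ‖y - y'‖ ∧ ‖G a y + 1‖ ≤ (p : ℝ)⁻¹

/-- STEP -/
def S_STEP : Prop := ∀ (p : ℕ) [Fact p.Prime] (D C : ℝ) (m : ℕ), 0 < D → D ≤ (p : ℝ)⁻¹ → 1 / D ≤ C →
  St p D C m → St p D (C / D) (m + 1)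

/-- FIN -/
def S_FIN : Prop := ∀ (p : ℕ) [Fact p.Prime] (D C : ℝ) (m : ℕ), 0 < D → D ≤ (p : ℝ)⁻¹ → 1 / D ≤ C →
  St p D C m → ∃ a, DataE p m a

/-- BAS -/
def S_BAS : Prop := ∀ (p : ℕ) [Fact p.Prime] (n : ℕ), p ≠ 2 → ‖tt ℚ_[p] n + 1‖ < 1 →
  ∃ (D C : ℝ) (m : ℕ), 0 < D ∧ D ≤ (p : ℝ)⁻¹ ∧ 1 / D ≤ C ∧ St p D C m

end

end Pool.Agent.K6.H14.PD
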