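import Pool.Agent.K6.H14.PD.P_BAS
import Pool.Agent.Y955.PF.Mod

/-!
# Quadratic postcritically finite maps over `ℚ_p`: assembly
-/

set_option autoImplicit false

namespace Pool.Agent.K6.H14.PD

open Pool.Agent.Y955.PF

theorem iter (hS : S_STEP) {p : ℕ} [Fact p.Prime] {D C : ℝ} {m : ℕ} (hD : 0 < D)
    (hDp : D ≤ (p : ℝ)⁻¹) (hC : 1 / D ≤ C) (h : St p D C m) (N : ℕ) :
    ∃ C' : ℝ, 1 / D ≤ C' ∧ St p D C' (m + N) := by
  induction N with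
  | zero => exact ⟨C, hC, h⟩
  | succ N ih =>
    obtain ⟨C', h1, h2⟩ := ih
    refine ⟨C' / D, ?_, hS p D C' (m + N) hD hDp h1 h2⟩
    refine h1.trans ?_
    rw [le_div_iff₀ hD]
    have hD1 : D ≤ 1 := hDp.trans BAS.p_inv_lt.le
    have hC0 : 0 ≤ C' := (by positivity : (0 : ℝ) ≤ 1 / D).trans h1
    calc C' * D ≤ C' * 1 := mul_le_mul_of_nonneg_left hD1 hC0
      _ = C' := mul_one _

theorem main (hGD : S_GD) (hDN1 : S_DN1) (hS : S_STEP) (hF : S_FIN) (hB : S_BAS) (p : ℕ)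
    [Fact p.Prime] (h : ∃ n, (p : ℤ) ∣ d n) :
    (RationalPoints p 2 ∩ PCF (AlgebraicClosure ℚ_[p]) 2).Infinite := by
  obtain ⟨n, hn⟩ := h
  obtain ⟨hp, ht⟩ := hDN1 p n hn
  obtain ⟨D, C, m, hD, hDp, hC, hSt⟩ := hB p n hp ht
  refine mod_inf p 2 le_rfl fun N => ?_
  obtain ⟨C', h1, h2⟩ := iter hS hD hDp hC hSt N
  obtain ⟨a, ha⟩ := hF p D C' (m + N) hD hDp h1 h2
  exact hGD p (m + N) a ha N (Nat.le_add_left _ _)

end Pool.Agent.K6.H14.PD
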